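import Pool.Agent.Y933.KE.SmearRes

/-!
# The Poisson law for rare words: inclusion and exclusion
-/

set_option autoImplicit false

namespace Pool.Agent.K4H18.PO

open Finset Real MeasureTheory Filter Topology

/-- the inequalities of Bonferroni -/
lemma bonf (m j T : ℕ) : |(if m = j then (1 : ℝ) else 0) -
    ∑ t ∈ range (T + 1), (-1) ^ t * (((j + t).choose j : ℝ) * (m.choose (j + t) : ℝ))| ≤
      ((j + T).choose j : ℝ) * (m.choose (j + T) : ℝ) := by
  rcases lt_trichotomy m j with h | h | h
  · have h1 : ∀ t, m.choose (j + t) = 0 := fun t => Nat.choose_eq_zero_of_lt (by omega)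
    simp [h1, h.ne]
  · subst h
    have h1 : ∑ t ∈ range (T + 1), (-1 : ℝ) ^ t * (((m + t).choose m : ℝ) * (m.choose (m + t) : ℝ)) = 1 := by
      rw [sum_eq_single 0]
      · simp
      · intro t _ ht
        rw [Nat.choose_eq_zero_of_lt (show m < m + t by omega)]
        simp
      · intro h
        exact absurd (mem_range.2 (by omega)) h
    rw [h1, if_pos rfl, sub_self, abs_zero]
    positivity
  · obtain ⟨n, rfl⟩ : ∃ n, m = j + (n + 1) := ⟨m - j - 1, by omega⟩
    have e : ∀ t, ((j + t).choose j : ℝ) * ((j + (n + 1)).choose (j + t) : ℝ) =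
        ((j + (n + 1)).choose j : ℝ) * ((n + 1).choose t : ℝ) := by
      intro t
      have := Nat.choose_mul (n := j + (n + 1)) (k := j + t) (s := j) (by omega)
      rw [Nat.add_sub_cancel_left, Nat.add_sub_cancel_left] at this
      rw [mul_comm]
      exact_mod_cast this
    have h2 : ∑ t ∈ range (T + 1), (-1 : ℝ) ^ t * (((j + t).choose j : ℝ) * ((j + (n + 1)).choose (j + t) : ℝ)) =
        ((j + (n + 1)).choose j : ℝ) * ((-1) ^ T * (n.choose T : ℝ)) := by
      have h3 := Int.alternating_sum_range_choose_eq_choose (n := n) (m := T)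
      have h4 : ∑ t ∈ range (T + 1), (-1 : ℝ) ^ t * ((n + 1).choose t : ℝ) = (-1) ^ T * (n.choose T : ℝ) := by
        exact_mod_cast h3
      rw [← h4, mul_sum]
      apply sum_congr rfl
      intro t _
      rw [e t]
      ring
    rw [h2, if_neg (by omega), zero_sub, abs_neg, abs_mul, abs_mul, abs_pow, abs_neg, abs_one, one_pow, one_mul,
      Nat.abs_cast, Nat.abs_cast, e T]
    gcongr
    omega

variable {α : Type*} [MeasurableSpace α]

open Classical in
/-- the number of the events `A i`, `i < L`, which occur -/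
noncomputable def num (A : ℕ → Set α) (L : ℕ) (x : α) : ℕ := ((range L).filter (fun i => x ∈ A i)).card

/-- the sum of the probabilities of the intersections of `r` events -/
noncomputable def bin (P : Measure α) (A : ℕ → Set α) (L r : ℕ) : ℝ :=
  ∑ S ∈ powersetCard r (range L), P.real {x | ∀ i ∈ S, x ∈ A i}

lemma bin_nonneg (P : Measure α) (A : ℕ → Set α) (L r : ℕ) : 0 ≤ bin P A L r :=
  sum_nonneg fun _ _ => measureReal_nonneg

lemma meas_int {A : ℕ → Set α} (hA : ∀ i, MeasurableSet (A i)) (S : Finset ℕ) :
    MeasurableSet {x | ∀ i ∈ S, x ∈ A i} := by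
  have : {x | ∀ i ∈ S, x ∈ A i} = ⋂ i ∈ S, A i := by
    ext x
    simp
  rw [this]
  exact Finset.measurableSet_biInter S fun i _ => hA i

lemma num_choose (A : ℕ → Set α) (L r : ℕ) (x : α) : ((num A L x).choose r : ℝ) =
    ∑ S ∈ powersetCard r (range L), ({x | ∀ i ∈ S, x ∈ A i} : Set α).indicator (fun _ => (1 : ℝ)) x := by
  classical
  unfold num
  rw [← card_powersetCard]
  have h1 : powersetCard r ((range L).filter (fun i => x ∈ A i)) =
      (powersetCard r (range L)).filter (fun S => ∀ i ∈ S, x ∈ A i) := by
    ext S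
    rw [mem_powersetCard, mem_filter, mem_powersetCard]
    constructor
    · rintro ⟨h1, h2⟩
      refine ⟨⟨fun i hi => (mem_filter.1 (h1 hi)).1, h2⟩, fun i hi => (mem_filter.1 (h1 hi)).2⟩
    · rintro ⟨⟨h1, h2⟩, h3⟩
      exact ⟨fun i hi => mem_filter.2 ⟨h1 hi, h3 i hi⟩, h2⟩
  rw [h1, card_filter]
  push_cast
  apply sum_congr rfl
  intro S _
  rw [Set.indicator_apply]
  simp only [Set.mem_ofPred_eq]

lemma int_choose (P : Measure α) [IsProbabilityMeasure P] {A : ℕ → Set α} (hA : ∀ i, MeasurableSet (A i)) (L r : ℕ) :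
    ∫ x, ((num A L x).choose r : ℝ) ∂P = bin P A L r := by
  simp_rw [num_choose]
  rw [integral_finsetSum]
  · unfold bin
    apply sum_congr rfl
    intro S _
    rw [integral_indicator_const _ (meas_int hA S)]
    simp
  · intro S _
    exact (integrable_const _).indicator (meas_int hA S)

lemma integrable_choose (P : Measure α) [IsProbabilityMeasure P] {A : ℕ → Set α} (hA : ∀ i, MeasurableSet (A i))
    (L r : ℕ) : Integrable (fun x => ((num A L x).choose r : ℝ)) P := by
  simp_rw [num_choose]
  apply integrable_finsetSum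
  intro S _
  exact (integrable_const _).indicator (meas_int hA S)

lemma meas_num {A : ℕ → Set α} (hA : ∀ i, MeasurableSet (A i)) (L : ℕ) : Measurable (num A L) := by
  classical
  have : num A L = fun x => ∑ i ∈ range L, (A i).indicator (fun _ => 1) x := by
    funext x
    unfold num
    rw [card_filter]
    apply sum_congr rfl
    intro i _
    rw [Set.indicator_apply]
  rw [this]
  exact Finset.measurable_fun_sum _ fun i _ => measurable_const.indicator (hA i)

/-- the probability that exactly `j` of the events occur -/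
theorem prob_num (P : Measure α) [IsProbabilityMeasure P] {A : ℕ → Set α} (hA : ∀ i, MeasurableSet (A i))
    (L j T : ℕ) : |P.real {x | num A L x = j} - ∑ t ∈ range (T + 1), (-1) ^ t * (((j + t).choose j : ℝ) *
      bin P A L (j + t))| ≤ ((j + T).choose j : ℝ) * bin P A L (j + T) := by
  have hm : MeasurableSet {x | num A L x = j} := meas_num hA L (measurableSet_singleton j)
  have h1 : P.real {x | num A L x = j} = ∫ x, (if num A L x = j then (1 : ℝ) else 0) ∂P := by
    have := integral_indicator_one (μ := P) hm
    rw [← this]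
    congr 1
    funext x
    rw [Set.indicator_apply]
    rfl
  have hI0 : Integrable (fun x => if num A L x = j then (1 : ℝ) else 0) P := by
    have : (fun x => if num A L x = j then (1 : ℝ) else 0) =
        ({x | num A L x = j} : Set α).indicator (fun _ => (1 : ℝ)) := by
      funext x
      rw [Set.indicator_apply]
      rfl
    rw [this]
    exact (integrable_const _).indicator hm
  have hI : ∀ t, Integrable (fun x => (-1 : ℝ) ^ t * (((j + t).choose j : ℝ) * ((num A L x).choose (j + t) : ℝ))) P :=
    fun t => ((integrable_choose P hA L (j + t)).const_mul _).const_mul _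
  have h2 : ∑ t ∈ range (T + 1), (-1 : ℝ) ^ t * (((j + t).choose j : ℝ) * bin P A L (j + t)) =
      ∫ x, ∑ t ∈ range (T + 1), (-1 : ℝ) ^ t * (((j + t).choose j : ℝ) * ((num A L x).choose (j + t) : ℝ)) ∂P := by
    rw [integral_finsetSum _ fun t _ => hI t]
    apply sum_congr rfl
    intro t _
    rw [integral_const_mul, integral_const_mul, int_choose P hA]
  rw [h1, h2, ← integral_sub hI0 (integrable_finsetSum _ fun t _ => hI t), ← int_choose P hA, ← integral_const_mul]
  refine (abs_integral_le_integral_abs).trans ?_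
  apply integral_mono
  · exact (hI0.sub (integrable_finsetSum _ fun t _ => hI t)).abs
  · exact (integrable_choose P hA L (j + T)).const_mul _
  · intro x
    exact bonf (num A L x) j T

/-- the number of the sets is at most -/
lemma bin_le (P : Measure α) [IsProbabilityMeasure P] (A : ℕ → Set α) (L r : ℕ) (β : ℝ)
    (h : ∀ S ∈ powersetCard r (range L), P.real {x | ∀ i ∈ S, x ∈ A i} ≤ β) (hβ : 0 ≤ β) :
    bin P A L r ≤ (L : ℝ) ^ r / r.factorial * β := by
  unfold bin
  calc ∑ S ∈ powersetCard r (range L), P.real {x | ∀ i ∈ S, x ∈ A i} ≤ ∑ S ∈ powersetCard r (range L), β :=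
        sum_le_sum h
    _ = ((powersetCard r (range L)).card : ℝ) * β := by rw [sum_const, nsmul_eq_mul]
    _ ≤ _ := by
      apply mul_le_mul_of_nonneg_right _ hβ
      rw [card_powersetCard, card_range]
      exact Nat.choose_le_pow_div r L

/-- the error of the Poisson probabilities -/
theorem poisson_close (P : Measure α) [IsProbabilityMeasure P] {A : ℕ → Set α} (hA : ∀ i, MeasurableSet (A i))
    (L j T : ℕ) (lam η : ℝ) (hlam : 0 ≤ lam) (hη : 0 ≤ η)
    (h : ∀ r ≤ j + T, |bin P A L r - lam ^ r / r.factorial| ≤ η) :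
    |P.real {x | num A L x = j} - Real.exp (-lam) * lam ^ j / j.factorial| ≤
      (T + 2) * ((j + T).choose j : ℝ) * η + lam ^ j / j.factorial * (2 * (lam ^ T / T.factorial) +
        |Real.exp (-lam) - ∑ t ∈ range (T + 1), (-lam) ^ t / t.factorial|) := by
  have h1 := prob_num P hA L j T
  have hjT : ∀ t ≤ T, ((j + t).choose j : ℝ) ≤ ((j + T).choose j : ℝ) := fun t ht => by
    exact_mod_cast Nat.choose_le_choose j (by omega)
  have e1 : ∀ t : ℕ, ((j + t).choose j : ℝ) * (lam ^ (j + t) / (j + t).factorial) =
      lam ^ j / j.factorial * (lam ^ t / t.factorial) := by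
    intro t
    have h2 : ((j + t).choose j : ℝ) * (j.factorial * t.factorial) = (j + t).factorial := by
      have := Nat.add_choose_mul_factorial_mul_factorial j t
      rw [← Nat.choose_symm_add] at this
      rw [← mul_assoc]
      exact_mod_cast this
    have h3 : ((j + t).factorial : ℝ) ≠ 0 := by positivity
    rw [div_mul_div_comm, ← mul_div_assoc, div_eq_div_iff h3 (by positivity), ← h2, pow_add]
    ring
  have h3 : |∑ t ∈ range (T + 1), (-1 : ℝ) ^ t * (((j + t).choose j : ℝ) * bin P A L (j + t)) -
      lam ^ j / j.factorial * ∑ t ∈ range (T + 1), (-lam) ^ t / t.factorial| ≤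
        (T + 1) * ((j + T).choose j : ℝ) * η := by
    rw [mul_sum, ← sum_sub_distrib]
    refine (abs_sum_le_sum_abs _ _).trans ?_
    calc _ ≤ ∑ t ∈ range (T + 1), ((j + T).choose j : ℝ) * η := by
          apply sum_le_sum
          intro t ht
          have ht' : t ≤ T := by rw [mem_range] at ht; omega
          have e2 : lam ^ j / j.factorial * ((-lam) ^ t / t.factorial) =
              (-1 : ℝ) ^ t * (((j + t).choose j : ℝ) * (lam ^ (j + t) / (j + t).factorial)) := by
            rw [e1 t, neg_pow]
            ring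
          rw [e2, ← mul_sub, ← mul_sub, abs_mul, abs_mul, abs_pow, abs_neg, abs_one, one_pow, one_mul, Nat.abs_cast]
          exact mul_le_mul (hjT t ht') (h (j + t) (by omega)) (abs_nonneg _) (by positivity)
      _ = _ := by
        rw [sum_const, card_range, nsmul_eq_mul]
        push_cast
        ring
  have h4 : ((j + T).choose j : ℝ) * bin P A L (j + T) ≤ ((j + T).choose j : ℝ) * η +
      lam ^ j / j.factorial * (lam ^ T / T.factorial) := by
    rw [← e1 T, ← mul_add]
    apply mul_le_mul_of_nonneg_left _ (by positivity)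
    have := (abs_le.1 (h (j + T) le_rfl)).2
    linarith
  have e5 : Real.exp (-lam) * lam ^ j / j.factorial = lam ^ j / j.factorial * Real.exp (-lam) := by ring
  have h5 : |lam ^ j / j.factorial * ∑ t ∈ range (T + 1), (-lam) ^ t / t.factorial -
      Real.exp (-lam) * lam ^ j / j.factorial| = lam ^ j / j.factorial *
        |Real.exp (-lam) - ∑ t ∈ range (T + 1), (-lam) ^ t / t.factorial| := by
    rw [e5, ← mul_sub, abs_mul, abs_of_nonneg (by positivity), abs_sub_comm]
  have h6 : 0 ≤ lam ^ j / j.factorial * (lam ^ T / T.factorial) := by positivity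
  set x0 := P.real {x | num A L x = j}
  set x1 := ∑ t ∈ range (T + 1), (-1 : ℝ) ^ t * (((j + t).choose j : ℝ) * bin P A L (j + t))
  set x2 := lam ^ j / j.factorial * ∑ t ∈ range (T + 1), (-lam) ^ t / t.factorial
  set x3 := Real.exp (-lam) * lam ^ j / j.factorial
  have h7 : |x0 - x3| ≤ |x0 - x1| + |x1 - x2| + |x2 - x3| := by
    have : x0 - x3 = (x0 - x1) + (x1 - x2) + (x2 - x3) := by ring
    rw [this]
    exact (abs_add_le _ _).trans (add_le_add_left (abs_add_le _ _) _)
  have h8 : ((T : ℝ) + 2) * ((j + T).choose j : ℝ) * η = (T + 1) * ((j + T).choose j : ℝ) * η +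
      ((j + T).choose j : ℝ) * η := by ring
  rw [h8]
  rw [h5] at h7
  nlinarith

end Pool.Agent.K4H18.PO
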