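import Pool.Agent.K4H18.PO.P1

/-!
# The Poisson law for rare words: random real numbers
-/

set_option autoImplicit false

namespace Pool.Agent.K4H18.PO

open Finset Real MeasureTheory Filter Topology
open Pool.Agent.Y933.KD Pool.Agent.Y933.KE

/-- the event that the word of `ℓ` digits after the `i`-th place is in `W` -/
def Aw (q ℓ : ℕ) (W : Finset ℕ) (i : ℕ) : Set ℝ := {x | wd q ℓ i x ∈ W}

lemma meas_Aw (q ℓ : ℕ) (W : Finset ℕ) (i : ℕ) : MeasurableSet (Aw q ℓ W i) := by
  classical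
  have : Aw q ℓ W i = ⋃ c ∈ W, {x | wd q ℓ i x = c} := by
    ext x
    unfold Aw
    simp
  rw [this]
  exact Finset.measurableSet_biUnion W fun c _ => measurableSet_eq_fun (measurable_wd _ _ _) measurable_const

/-- the places are separated by `ℓ` -/
def Sep (ℓ : ℕ) (S : Finset ℕ) : Prop := ∀ i ∈ S, ∀ j ∈ S, i < j → i + ℓ ≤ j

/-- no two different words of `W` overlap, and no word overlaps itself -/
def NonOv (q ℓ : ℕ) (W : Finset ℕ) : Prop :=
  ∀ h, 1 ≤ h → h < ℓ → ∀ c < q ^ (ℓ + h), ¬ (c / q ^ h ∈ W ∧ c % q ^ ℓ ∈ W)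

lemma dep_prod {b p : ℕ} (s : Finset ℕ) (A : ℕ → ℝ → ℝ) (hA : ∀ i ∈ s, Dep b p (A i)) :
    Dep b p (fun x => ∏ i ∈ s, A i x) := by
  classical
  induction s using Finset.induction_on with
  | empty => exact ⟨fun _ => 1, fun x _ => by simp⟩
  | insert a s ha ih =>
    simp only [prod_insert ha]
    exact (hA a (mem_insert_self _ _)).comp₂ (ih fun i hi => hA i (mem_insert_of_mem hi))
      (fun u v => u * v)

lemma real_eq_int (P : Measure ℝ) [IsProbabilityMeasure P] (q ℓ : ℕ) (W : Finset ℕ) (S : Finset ℕ) :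
    P.real {x | ∀ i ∈ S, x ∈ Aw q ℓ W i} = ∫ x, ∏ i ∈ S, (if wd q ℓ i x ∈ W then (1 : ℝ) else 0) ∂P := by
  rw [← integral_indicator_one (meas_int (meas_Aw q ℓ W) S)]
  congr 1
  funext x
  by_cases h : ∀ i ∈ S, x ∈ Aw q ℓ W i
  · rw [Set.indicator_of_mem (show x ∈ {x | ∀ i ∈ S, x ∈ Aw q ℓ W i} from h), Pi.one_apply]
    symm
    apply prod_eq_one
    intro i hi
    rw [if_pos]
    exact h i hi
  · rw [Set.indicator_of_notMem (show x ∉ {x | ∀ i ∈ S, x ∈ Aw q ℓ W i} from h)]
    push Not at h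
    obtain ⟨i, hi, hx⟩ := h
    symm
    apply prod_eq_zero hi
    rw [if_neg]
    exact hx

/-- the density of the words -/
noncomputable def rho (q ℓ : ℕ) (W : Finset ℕ) : ℝ := (W.card : ℝ) / (q : ℝ) ^ ℓ

lemma rho_nonneg (q ℓ : ℕ) (W : Finset ℕ) : 0 ≤ rho q ℓ W := by unfold rho; positivity

lemma leb_sep {q ℓ : ℕ} (hq : 1 ≤ q) {W : Finset ℕ} (hW : W ⊆ range (q ^ ℓ)) (S : Finset ℕ) :
    Sep ℓ S → Leb.real {x | ∀ i ∈ S, x ∈ Aw q ℓ W i} = rho q ℓ W ^ S.card := by
  classical
  induction S using Finset.induction_on_max with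
  | empty =>
    intro _
    simp
  | insert a s hmax ih =>
    intro hS
    have ha : a ∉ s := fun h => (hmax a h).ne rfl
    have hs : Sep ℓ s := fun i hi j hj hij => hS i (mem_insert_of_mem hi) j (mem_insert_of_mem hj) hij
    have h1 := ih hs
    rw [real_eq_int] at h1 ⊢
    have hdep : Dep q a (fun x => ∏ i ∈ s, (if wd q ℓ i x ∈ W then (1 : ℝ) else 0)) := by
      apply dep_prod
      intro i hi
      exact (dep_wd hq (hS i (mem_insert_of_mem hi) a (mem_insert_self _ _) (hmax i hi))).comp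
        (fun c => if c ∈ W then (1 : ℝ) else 0)
    have hm : Measurable (fun y : ℝ => if wd q ℓ 0 y ∈ W then (1 : ℝ) else 0) :=
      (measurable_from_top (f := fun c : ℕ => if c ∈ W then (1 : ℝ) else 0)).comp (measurable_wd q ℓ 0)
    have h2 := renewal_real hq hdep hm (C := 1) (fun x => by split_ifs <;> simp)
    have h3 : ∫ x, ∏ i ∈ insert a s, (if wd q ℓ i x ∈ W then (1 : ℝ) else 0) ∂Leb =
        ∫ x, (∏ i ∈ s, (if wd q ℓ i x ∈ W then (1 : ℝ) else 0)) *
          (if wd q ℓ 0 (Tb q a x) ∈ W then (1 : ℝ) else 0) ∂Leb := by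
      congr 1
      funext x
      rw [prod_insert ha, mul_comm]
      congr 2
      rw [← wd_add, Nat.add_zero]
    rw [h3, h2, h1, card_insert_of_notMem ha, pow_succ]
    congr 1
    have h4 := int_word hq ℓ 0 (fun c => if c ∈ W then (1 : ℝ) else 0)
    rw [h4]
    unfold rho
    congr 1
    rw [← sum_filter, filter_mem_eq_inter, inter_eq_right.2 hW, sum_const, nsmul_eq_mul, mul_one]

lemma wd_pair {q ℓ h n : ℕ} (hq : 1 ≤ q) {x : ℝ} (hx : 0 ≤ x) :
    wd q ℓ n x = wd q (ℓ + h) n x / q ^ h ∧ wd q ℓ (n + h) x = wd q (ℓ + h) n x % q ^ ℓ := by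
  have hq0 : 0 < q := hq
  have e0 := wd_floor hq (n := n) (w := ℓ + h) (J := n + ℓ + h) (by omega) hx
  have e1 := wd_floor hq (n := n) (w := ℓ) (J := n + ℓ + h) (by omega) hx
  have e2 := wd_floor hq (n := n + h) (w := ℓ) (J := n + ℓ + h) (by omega) hx
  have f0 : n + ℓ + h - (n + (ℓ + h)) = 0 := by omega
  have f1 : n + ℓ + h - (n + ℓ) = h := by omega
  have f2 : n + ℓ + h - (n + h + ℓ) = 0 := by omega
  rw [f0, pow_zero, Nat.div_one] at e0
  rw [f1] at e1
  rw [f2, pow_zero, Nat.div_one] at e2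
  set m := ⌊(q : ℝ) ^ (n + ℓ + h) * x⌋₊
  rw [e0, e1, e2]
  constructor
  · rw [pow_add, mul_comm (q ^ ℓ), Nat.mod_mul_right_div_self]
  · rw [pow_add, Nat.mod_mul_right_mod]

lemma Leb_compl : Leb.real (Set.Ico (0 : ℝ) 1)ᶜ = 0 := by
  unfold Leb Measure.real
  rw [Measure.restrict_apply measurableSet_Ico.compl]
  simp

lemma leb_nonsep {q ℓ : ℕ} (hq : 1 ≤ q) {W : Finset ℕ} (hNO : NonOv q ℓ W) {S : Finset ℕ} (hS : ¬ Sep ℓ S) :
    Leb.real {x | ∀ i ∈ S, x ∈ Aw q ℓ W i} = 0 := by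
  unfold Sep at hS
  push Not at hS
  obtain ⟨i, hi, j, hj, hij, hlt⟩ := hS
  apply le_antisymm _ measureReal_nonneg
  rw [← Leb_compl]
  refine measureReal_mono ?_ (measure_ne_top _ _)
  intro x hx hx1
  obtain ⟨h, rfl⟩ : ∃ h, j = i + h := ⟨j - i, by omega⟩
  obtain ⟨e1, e2⟩ := wd_pair (ℓ := ℓ) (h := h) (n := i) hq hx1.1
  have a1 : wd q ℓ i x ∈ W := hx i hi
  have a2 : wd q ℓ (i + h) x ∈ W := hx (i + h) hj
  rw [e1] at a1
  rw [e2] at a2
  exact hNO h (by omega) (by omega) _ (wd_lt hq _ _ _) ⟨a1, a2⟩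

open Classical in
lemma nonsep_card (ℓ L r : ℕ) : (((powersetCard r (range L)).filter (fun S => ¬ Sep ℓ S)).card : ℝ) * L ≤ ℓ * (L : ℝ) ^ r := by
  rcases Nat.lt_or_ge r 2 with hr | hr
  · have : (powersetCard r (range L)).filter (fun S => ¬ Sep ℓ S) = ∅ := by
      rw [filter_eq_empty_iff]
      intro S hS hcon
      apply hcon
      rw [mem_powersetCard] at hS
      intro i hi j hj hij
      have h1 : S.card ≤ 1 := by omega
      have := card_le_one.1 h1 i hi j hj
      omega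
    rw [this]
    simp only [card_empty, Nat.cast_zero, zero_mul]
    positivity
  · obtain ⟨t, rfl⟩ : ∃ t, r = t + 2 := ⟨r - 2, by omega⟩
    have hsub : (powersetCard (t + 2) (range L)).filter (fun S => ¬ Sep ℓ S) ⊆
        (range L ×ˢ range ℓ).biUnion (fun u => (powersetCard t (range L)).image
          (fun S' => insert u.1 (insert (u.1 + u.2) S'))) := by
      intro S hS
      rw [mem_filter, mem_powersetCard] at hS
      obtain ⟨⟨h1, h2⟩, h3⟩ := hS
      unfold Sep at h3
      push Not at h3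
      obtain ⟨i, hi, j, hj, hij, hlt⟩ := h3
      rw [mem_biUnion]
      refine ⟨(i, j - i), ?_, ?_⟩
      · rw [mem_product, mem_range, mem_range]
        exact ⟨mem_range.1 (h1 hi), by omega⟩
      · rw [mem_image]
        have hj' : j ∈ S.erase i := mem_erase.2 ⟨by omega, hj⟩
        refine ⟨(S.erase i).erase j, ?_, ?_⟩
        · rw [mem_powersetCard]
          refine ⟨fun x hx => h1 (mem_of_mem_erase (mem_of_mem_erase hx)), ?_⟩
          rw [card_erase_of_mem hj', card_erase_of_mem hi]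
          omega
        · show insert i (insert (i + (j - i)) ((S.erase i).erase j)) = S
          have : i + (j - i) = j := by omega
          rw [this, insert_erase hj', insert_erase hi]
    have h1 : ((powersetCard (t + 2) (range L)).filter (fun S => ¬ Sep ℓ S)).card ≤ (L * ℓ) * L ^ t := by
      refine (card_le_card hsub).trans (card_biUnion_le.trans ?_)
      calc _ ≤ ∑ u ∈ range L ×ˢ range ℓ, L ^ t := by
            apply sum_le_sum
            intro u _
            refine card_image_le.trans ?_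
            rw [card_powersetCard, card_range]
            exact Nat.choose_le_pow L t
        _ = _ := by rw [sum_const, card_product, card_range, card_range, smul_eq_mul]
    have h2 : (((powersetCard (t + 2) (range L)).filter (fun S => ¬ Sep ℓ S)).card : ℝ) ≤ (L * ℓ) * (L : ℝ) ^ t := by
      exact_mod_cast h1
    calc _ ≤ (L * ℓ) * (L : ℝ) ^ t * L := by gcongr
      _ = _ := by ring

/-- the factorial moments for random real numbers -/
theorem bin_leb {q ℓ : ℕ} (hq : 1 ≤ q) {W : Finset ℕ} (hW : W ⊆ range (q ^ ℓ)) (hNO : NonOv q ℓ W) (L r : ℕ)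
    (hL : 1 ≤ L) :
    |bin Leb (Aw q ℓ W) L r - (L * rho q ℓ W) ^ r / r.factorial| ≤ (L * rho q ℓ W) ^ r * ((r ^ 2 + ℓ) / L) := by
  classical
  set ρ := rho q ℓ W with hρ
  have hρ0 : 0 ≤ ρ := rho_nonneg q ℓ W
  have hLr : (0 : ℝ) < L := by exact_mod_cast hL
  set a := ((powersetCard r (range L)).filter (fun S => Sep ℓ S)).card with ha
  set b := ((powersetCard r (range L)).filter (fun S => ¬ Sep ℓ S)).card with hb
  have hab : a + b = L.choose r := by
    rw [ha, hb, card_filter_add_card_filter_not, card_powersetCard, card_range]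
  have h1 : bin Leb (Aw q ℓ W) L r = a * ρ ^ r := by
    unfold bin
    have : ∀ S ∈ powersetCard r (range L), Leb.real {x | ∀ i ∈ S, x ∈ Aw q ℓ W i} = if Sep ℓ S then ρ ^ r else 0 := by
      intro S hS
      split_ifs with h
      · rw [leb_sep hq hW S h, (mem_powersetCard.1 hS).2]
      · exact leb_nonsep hq hNO h
    rw [sum_congr rfl this, ← sum_filter, sum_const, nsmul_eq_mul]
  have hup : (a : ℝ) ≤ (L : ℝ) ^ r / r.factorial := by
    refine le_trans ?_ (Nat.choose_le_pow_div r L)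
    exact_mod_cast (by omega : a ≤ L.choose r)
  have hb2 : (b : ℝ) ≤ ℓ * (L : ℝ) ^ r / L := by
    rw [le_div_iff₀ hLr]
    exact nonsep_card ℓ L r
  have hch : (L : ℝ) ^ r / r.factorial * (1 - r ^ 2 / L) ≤ L.choose r := by
    have hf : (0 : ℝ) < r.factorial := by positivity
    rw [div_mul_eq_mul_div, div_le_iff₀ hf]
    have h2 : ((L.choose r : ℝ)) * r.factorial = (L.descFactorial r : ℝ) := by
      rw [Nat.descFactorial_eq_factorial_mul_choose]
      push_cast
      ring
    rw [h2]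
    have h3 : ((L + 1 - r : ℕ) : ℝ) ^ r ≤ L.descFactorial r := by exact_mod_cast Nat.pow_sub_le_descFactorial L r
    refine le_trans ?_ h3
    rcases Nat.lt_or_ge L r with hLr' | hLr'
    · have h4 : (1 : ℝ) - (r : ℝ) ^ 2 / L ≤ 0 := by
        rw [sub_nonpos, one_le_div hLr]
        have : (L : ℝ) ≤ r := by exact_mod_cast hLr'.le
        have : (1 : ℝ) ≤ r := by exact_mod_cast (by omega : 1 ≤ r)
        nlinarith
      refine le_trans (mul_nonpos_of_nonneg_of_nonpos (by positivity) h4) (by positivity)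
    · have h5 : (L : ℝ) * (1 - r / L) ≤ ((L + 1 - r : ℕ) : ℝ) := by
        rw [Nat.cast_sub (by omega)]
        push_cast
        have : (L : ℝ) * (1 - r / L) = L - r := by field_simp
        linarith
      have h6 : (0 : ℝ) ≤ 1 - r / L := by
        rw [sub_nonneg, div_le_one hLr]
        exact_mod_cast hLr'
      calc (L : ℝ) ^ r * (1 - r ^ 2 / L) ≤ (L : ℝ) ^ r * (1 - r / L) ^ r := by
            apply mul_le_mul_of_nonneg_left _ (by positivity)
            have h7 := one_add_mul_le_pow (show (-2 : ℝ) ≤ -(r / L : ℝ) by linarith) r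
            calc (1 : ℝ) - r ^ 2 / L = 1 + r * (-(r / L : ℝ)) := by ring
              _ ≤ (1 + -(r / L : ℝ)) ^ r := h7
              _ = _ := by ring
        _ = ((L : ℝ) * (1 - r / L)) ^ r := by rw [mul_pow]
        _ ≤ _ := by gcongr
  have hab2 : (a : ℝ) + b = L.choose r := by exact_mod_cast hab
  have hf1 : (1 : ℝ) ≤ r.factorial := by exact_mod_cast Nat.one_le_iff_ne_zero.2 (Nat.factorial_ne_zero r)
  have hlow : (L : ℝ) ^ r / r.factorial - (L : ℝ) ^ r * ((r ^ 2 + ℓ) / L) ≤ a := by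
    have h8 : (L : ℝ) ^ r / r.factorial * (r ^ 2 / L) ≤ (L : ℝ) ^ r * (r ^ 2 / L) := by
      apply mul_le_mul_of_nonneg_right _ (by positivity)
      exact div_le_self (by positivity) hf1
    have h9 : (L : ℝ) ^ r * ((r ^ 2 + ℓ) / L) = (L : ℝ) ^ r * (r ^ 2 / L) + ℓ * (L : ℝ) ^ r / L := by ring
    have h10 : (L : ℝ) ^ r / r.factorial * (1 - r ^ 2 / L) = (L : ℝ) ^ r / r.factorial -
      (L : ℝ) ^ r / r.factorial * (r ^ 2 / L) := by ring
    linarith
  rw [h1]
  have hρr : 0 ≤ ρ ^ r := by positivity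
  have e1 : (L * ρ) ^ r / r.factorial = (L : ℝ) ^ r / r.factorial * ρ ^ r := by rw [mul_pow]; ring
  have e2 : (L * ρ) ^ r * ((r ^ 2 + ℓ) / L) = (L : ℝ) ^ r * ((r ^ 2 + ℓ) / L) * ρ ^ r := by rw [mul_pow]; ring
  rw [e1, e2, abs_le]
  constructor
  · nlinarith [mul_le_mul_of_nonneg_right hlow hρr]
  · have h11 := mul_le_mul_of_nonneg_right hup hρr
    have h12 : 0 ≤ (L : ℝ) ^ r * ((r ^ 2 + ℓ) / L) * ρ ^ r := by positivity
    linarith

end Pool.Agent.K4H18.PO
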