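import Pool.Agent.K4H18.PO.P2

/-!
# The Poisson law for rare words: the comparison with random real numbers
-/

set_option autoImplicit false

namespace Pool.Agent.K4H18.PO

open Finset Real MeasureTheory Filter Topology
open Pool.Agent.Y933.KD Pool.Agent.Y933.KE

lemma leb_shift {q ℓ : ℕ} (hq : 1 ≤ q) (W : Finset ℕ) (s : ℕ) (S : Finset ℕ) :
    Leb.real {x | ∀ i ∈ S, x ∈ Aw q ℓ W (s + i)} = Leb.real {x | ∀ i ∈ S, x ∈ Aw q ℓ W i} := by
  classical
  have hm := meas_int (meas_Aw q ℓ W) S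
  have hm2 := meas_int (fun i => meas_Aw q ℓ W (s + i)) S
  rw [← integral_indicator_one hm, ← integral_indicator_one hm2]
  have hmeas : Measurable (({x | ∀ i ∈ S, x ∈ Aw q ℓ W i} : Set ℝ).indicator (1 : ℝ → ℝ)) :=
    measurable_one.indicator hm
  have h1 := invariance_real (b := q) (p := s) hq hmeas (C := 1) (fun x => by
    rw [Set.indicator_apply]
    split_ifs <;> simp)
  rw [← h1]
  congr 1
  funext x
  rw [Set.indicator_apply, Set.indicator_apply]
  have : (x ∈ {x | ∀ i ∈ S, x ∈ Aw q ℓ W (s + i)}) ↔ (Tb q s x ∈ {x | ∀ i ∈ S, x ∈ Aw q ℓ W i}) := by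
    simp only [Set.mem_ofPred_eq]
    refine forall₂_congr fun i _ => ?_
    unfold Aw
    simp only [Set.mem_ofPred_eq]
    rw [wd_add]
  by_cases h : x ∈ {x | ∀ i ∈ S, x ∈ Aw q ℓ W (s + i)}
  · rw [if_pos h, if_pos (this.1 h)]
    rfl
  · rw [if_neg h, if_neg (fun h' => h (this.2 h'))]

lemma ev_union {q ℓ : ℕ} (W : Finset ℕ) (s : ℕ) (S : Finset ℕ) {r : ℕ} (hr : S.card = r) :
    {x | ∀ i ∈ S, x ∈ Aw q ℓ W (s + i)} =
      ⋃ c ∈ Fintype.piFinset (fun _ : Fin r => W), WE q (fun k => s + S.orderEmbOfFin hr k) (fun _ => ℓ) c := by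
  ext x
  simp only [Set.mem_ofPred_eq, Set.mem_iUnion, Fintype.mem_piFinset, exists_prop]
  constructor
  · intro h
    refine ⟨fun k => wd q ℓ (s + S.orderEmbOfFin hr k) x, fun k => h _ (orderEmbOfFin_mem S hr k), fun k => rfl⟩
  · rintro ⟨c, hc, hx⟩ i hi
    have : i ∈ Set.range (S.orderEmbOfFin hr) := by rw [range_orderEmbOfFin]; exact hi
    obtain ⟨k, rfl⟩ := this
    unfold Aw
    simp only [Set.mem_ofPred_eq]
    rw [hx k]
    exact hc k

lemma real_union (P : Measure ℝ) [IsProbabilityMeasure P] {q ℓ : ℕ} (W : Finset ℕ) (s : ℕ) (S : Finset ℕ) {r : ℕ}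
    (hr : S.card = r) : P.real {x | ∀ i ∈ S, x ∈ Aw q ℓ W (s + i)} =
      ∑ c ∈ Fintype.piFinset (fun _ : Fin r => W), P.real (WE q (fun k => s + S.orderEmbOfFin hr k) (fun _ => ℓ) c) := by
  rw [ev_union W s S hr]
  refine measureReal_biUnion_finset ?_ ?_ (fun _ _ => measure_ne_top _ _)
  · intro c _ c' _ hne
    rw [Function.onFun, Set.disjoint_left]
    intro x hx hx'
    apply hne
    funext k
    rw [← hx k, ← hx' k]
  · intro c _
    exact measurableSet_WE _ _ _ _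

/-- the comparison of the factorial moments -/
lemma bin_comp (P : Measure ℝ) [IsProbabilityMeasure P] {q ℓ : ℕ} (hq : 1 ≤ q) (W : Finset ℕ) (s L r : ℕ) (Δ : ℝ)
    (hΔ : 0 ≤ Δ) (h : ∀ n c : Fin r → ℕ, (∀ i, n i + ℓ ≤ s + L + ℓ) →
      |P.real (WE q n (fun _ => ℓ) c) - Leb.real (WE q n (fun _ => ℓ) c)| ≤ Δ) :
    |bin P (fun i => Aw q ℓ W (s + i)) L r - bin Leb (Aw q ℓ W) L r| ≤ (L * W.card : ℝ) ^ r * Δ := by
  unfold bin
  rw [← sum_sub_distrib]
  refine (abs_sum_le_sum_abs _ _).trans ?_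
  calc _ ≤ ∑ S ∈ powersetCard r (range L), (W.card : ℝ) ^ r * Δ := by
        apply sum_le_sum
        intro S hS
        rw [mem_powersetCard] at hS
        rw [← leb_shift hq W s S, real_union P W s S hS.2, real_union Leb W s S hS.2, ← sum_sub_distrib]
        refine (abs_sum_le_sum_abs _ _).trans ?_
        calc _ ≤ ∑ c ∈ Fintype.piFinset (fun _ : Fin r => W), Δ := by
              apply sum_le_sum
              intro c _
              apply h
              intro k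
              have := mem_range.1 (hS.1 (orderEmbOfFin_mem S hS.2 k))
              omega
          _ = _ := by
            rw [sum_const, Fintype.card_piFinset, prod_const, card_univ, Fintype.card_fin, nsmul_eq_mul]
            push_cast
            ring
    _ = (L.choose r : ℝ) * ((W.card : ℝ) ^ r * Δ) := by
        rw [sum_const, card_powersetCard, card_range, nsmul_eq_mul]
    _ ≤ (L : ℝ) ^ r * ((W.card : ℝ) ^ r * Δ) := by
        apply mul_le_mul_of_nonneg_right _ (by positivity)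
        exact_mod_cast Nat.choose_le_pow L r
    _ = _ := by rw [mul_pow]; ring

/-- the tests on at most `R` words -/
lemma tw_all {q : ℕ} {A : ℝ} {S : ℕ → Set (Measure ℝ)} (hT : ∀ r, TW q r A S) (R : ℕ) :
    ∃ δ : ℝ, 0 < δ ∧ ∃ C : ℝ, 0 ≤ C ∧ ∀ r ≤ R, ∀ M : ℕ, 1 ≤ M → ∀ P ∈ S M, ∀ n w c : Fin r → ℕ,
      (∀ i, (n i : ℝ) + w i ≤ A * log M) →
      |P.real (WE q n w c) - Leb.real (WE q n w c)| ≤ C * (M : ℝ) ^ (-δ) := by
  induction R with
  | zero =>
    obtain ⟨δ, hδ, C, h⟩ := hT 0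
    refine ⟨δ, hδ, max C 0, le_max_right _ _, ?_⟩
    intro r hr M hM P hP n w c hn
    obtain rfl : r = 0 := by omega
    refine (h M hM P hP n w c hn).trans ?_
    apply mul_le_mul_of_nonneg_right (le_max_left _ _) (by positivity)
  | succ R ih =>
    obtain ⟨δ₁, hδ₁, C₁, hC₁, h₁⟩ := ih
    obtain ⟨δ₂, hδ₂, C₂, h₂⟩ := hT (R + 1)
    refine ⟨min δ₁ δ₂, lt_min hδ₁ hδ₂, max C₁ C₂, hC₁.trans (le_max_left _ _), ?_⟩
    intro r hr M hM P hP n w c hn
    have hMR : (1 : ℝ) ≤ M := by exact_mod_cast hM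
    rcases Nat.lt_or_ge r (R + 1) with h | h
    · refine (h₁ r (by omega) M hM P hP n w c hn).trans ?_
      apply mul_le_mul (le_max_left _ _) _ (by positivity) (hC₁.trans (le_max_left _ _))
      apply Real.rpow_le_rpow_of_exponent_le hMR
      linarith [min_le_left δ₁ δ₂]
    · obtain rfl : r = R + 1 := by omega
      refine (h₂ M hM P hP n w c hn).trans ?_
      calc C₂ * (M : ℝ) ^ (-δ₂) ≤ max C₁ C₂ * (M : ℝ) ^ (-δ₂) := by
            apply mul_le_mul_of_nonneg_right (le_max_right _ _) (by positivity)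
        _ ≤ _ := by
            apply mul_le_mul_of_nonneg_left _ (hC₁.trans (le_max_left _ _))
            apply Real.rpow_le_rpow_of_exponent_le hMR
            linarith [min_le_right δ₁ δ₂]

/-- the tail of the exponential series -/
lemma exp_tail (Lam : ℝ) (j : ℕ) (ε : ℝ) (hε : 0 < ε) : ∃ T : ℕ, ∀ lam : ℝ, 0 ≤ lam → lam ≤ Lam →
    lam ^ j / j.factorial * (2 * (lam ^ T / T.factorial) +
      |Real.exp (-lam) - ∑ t ∈ range (T + 1), (-lam) ^ t / t.factorial|) ≤ ε := by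
  rcases lt_or_ge Lam 0 with h0 | h0
  · exact ⟨0, fun lam h1 h2 => by linarith⟩
  have h1 : Tendsto (fun n : ℕ => Lam ^ n / n.factorial) atTop (𝓝 0) :=
    FloorSemiring.tendsto_pow_div_factorial_atTop Lam
  have h2 : Tendsto (fun T : ℕ => Lam ^ j / j.factorial * (2 * (Lam ^ T / T.factorial) +
      Lam ^ (T + 1) / (T + 1).factorial * 2)) atTop (𝓝 (Lam ^ j / j.factorial * (2 * 0 + 0 * 2))) :=
    ((h1.const_mul 2).add (((tendsto_add_atTop_iff_nat 1).2 h1).mul_const 2)).const_mul _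
  rw [mul_zero, zero_mul, add_zero, mul_zero] at h2
  have ev : ∀ᶠ T : ℕ in atTop, (2 * Lam ≤ T) := by
    filter_upwards [eventually_ge_atTop ⌈2 * Lam⌉₊] with T hT
    exact (Nat.le_ceil _).trans (by exact_mod_cast hT)
  obtain ⟨T, hT1, hT2⟩ := ((h2.eventually (gt_mem_nhds hε)).and ev).exists
  refine ⟨T, fun lam hl0 hl1 => ?_⟩
  refine le_trans ?_ hT1.le
  have hb : |Real.exp (-lam) - ∑ t ∈ range (T + 1), (-lam) ^ t / t.factorial| ≤
      lam ^ (T + 1) / (T + 1).factorial * 2 := by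
    have h3 := Complex.exp_bound' (x := ((-lam : ℝ) : ℂ)) (n := T + 1) (by
      rw [Complex.norm_real, Real.norm_eq_abs, abs_neg, abs_of_nonneg hl0, div_le_iff₀ (by positivity)]
      push_cast
      linarith)
    rw [Complex.norm_real, Real.norm_eq_abs, abs_neg, abs_of_nonneg hl0] at h3
    have h4 : ((Real.exp (-lam) - ∑ t ∈ range (T + 1), (-lam) ^ t / t.factorial : ℝ) : ℂ) =
        Complex.exp ((-lam : ℝ) : ℂ) - ∑ m ∈ range (T + 1), ((-lam : ℝ) : ℂ) ^ m / (m.factorial : ℂ) := by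
      push_cast
      rfl
    rw [← h4, Complex.norm_real, Real.norm_eq_abs] at h3
    exact h3
  have h5 : lam ^ j ≤ Lam ^ j := pow_le_pow_left₀ hl0 hl1 j
  have h6 : lam ^ T ≤ Lam ^ T := pow_le_pow_left₀ hl0 hl1 T
  have h7 : lam ^ (T + 1) ≤ Lam ^ (T + 1) := pow_le_pow_left₀ hl0 hl1 (T + 1)
  have h8 : lam ^ (T + 1) / (T + 1).factorial * 2 ≤ Lam ^ (T + 1) / (T + 1).factorial * 2 := by gcongr
  calc _ ≤ lam ^ j / j.factorial * (2 * (lam ^ T / T.factorial) + Lam ^ (T + 1) / (T + 1).factorial * 2) := by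
        apply mul_le_mul_of_nonneg_left _ (by positivity)
        linarith
    _ ≤ _ := by gcongr

/-- **the Poisson law for rare words** -/
theorem poisson_TW {q : ℕ} (hq : 2 ≤ q) {A : ℝ} {S : ℕ → Set (Measure ℝ)} (hT : ∀ r, TW q r A S)
    (hS : ∀ M, 1 ≤ M → ∀ P ∈ S M, IsProbabilityMeasure P) (Lam : ℝ) (j : ℕ) (ε : ℝ) (hε : 0 < ε) :
    ∃ δ : ℝ, 0 < δ ∧ ∃ M0 : ℕ, ∀ M : ℕ, M0 ≤ M → ∀ P ∈ S M, ∀ (s ℓ L : ℕ) (W : Finset ℕ), W ⊆ range (q ^ ℓ) →
      NonOv q ℓ W → ((s + L + ℓ : ℕ) : ℝ) ≤ A * log M → (ℓ : ℝ) ≤ δ * L → 1 ≤ δ * L → L * rho q ℓ W ≤ Lam →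
      |P.real {x | num (fun i => Aw q ℓ W (s + i)) L x = j} -
        Real.exp (-(L * rho q ℓ W)) * (L * rho q ℓ W) ^ j / j.factorial| ≤ ε := by
  obtain ⟨T, hT1⟩ := exp_tail Lam j (ε / 2) (by positivity)
  obtain ⟨δ', hδ', C, hC, htw⟩ := tw_all hT (j + T)
  obtain ⟨η, hη⟩ : ∃ η : ℝ, η = ε / (2 * ((T + 2) * ((j + T).choose j : ℝ))) := ⟨_, rfl⟩
  have hch : (0 : ℝ) < (j + T).choose j := by exact_mod_cast Nat.choose_pos (by omega)
  have hη0 : 0 < η := by rw [hη]; positivity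
  obtain ⟨R, hR⟩ : ∃ R : ℕ, R = j + T + 1 := ⟨_, rfl⟩
  have hR1 : (1 : ℝ) ≤ R := by exact_mod_cast (by omega : 1 ≤ R)
  obtain ⟨U, hU⟩ : ∃ U : ℝ, U = max Lam 1 ^ R := ⟨_, rfl⟩
  have hU1 : 1 ≤ U := by rw [hU]; exact one_le_pow₀ (le_max_right _ _)
  have hlq : 0 < log q := Real.log_pos (by exact_mod_cast (by omega : 1 < q))
  obtain ⟨κ, hκ⟩ : ∃ κ : ℝ, κ = δ' / (4 * R) := ⟨_, rfl⟩
  have hκ0 : 0 < κ := by rw [hκ]; positivity
  obtain ⟨δ, hδ⟩ : ∃ δ : ℝ, δ = min (η / (2 * (U * (R ^ 2 + 1)))) (κ / ((|A| + 1) * log q)) := ⟨_, rfl⟩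
  have hδ0 : 0 < δ := by rw [hδ]; exact lt_min (by positivity) (by positivity)
  have hδ1 : δ * (U * (R ^ 2 + 1)) ≤ η / 2 := by
    have h1 : δ ≤ η / (2 * (U * (R ^ 2 + 1))) := by rw [hδ]; exact min_le_left _ _
    rw [le_div_iff₀ (by positivity)] at h1
    linarith
  have hδ2 : δ * ((|A| + 1) * log q) ≤ κ := by
    have h1 : δ ≤ κ / ((|A| + 1) * log q) := by rw [hδ]; exact min_le_right _ _
    rwa [le_div_iff₀ (by positivity)] at h1
  -- large `M`
  have ev : ∀ᶠ M : ℕ in atTop, (|A| * log M ≤ (M : ℝ) ^ κ) ∧ (C * (M : ℝ) ^ (-(δ' / 2)) ≤ η / 2) ∧ 2 ≤ M := by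
    have hn : Tendsto (fun M : ℕ => (M : ℝ)) atTop atTop := tendsto_natCast_atTop_atTop
    have h1 : ∀ᶠ x : ℝ in atTop, ‖log x‖ ≤ (1 / (|A| + 1)) * ‖x ^ κ‖ :=
      (isLittleO_log_rpow_atTop hκ0).bound (by positivity)
    have h2 : Tendsto (fun M : ℕ => C * (M : ℝ) ^ (-(δ' / 2))) atTop (𝓝 (C * 0)) :=
      ((tendsto_rpow_neg_atTop (by positivity : 0 < δ' / 2)).comp hn).const_mul C
    rw [mul_zero] at h2
    filter_upwards [hn.eventually h1, h2.eventually (gt_mem_nhds (by positivity : (0 : ℝ) < η / 2)),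
      eventually_ge_atTop 2] with M h3 h4 h5
    refine ⟨?_, h4.le, h5⟩
    have hM : (1 : ℝ) ≤ M := by exact_mod_cast (by omega : 1 ≤ M)
    have hl : 0 ≤ log M := Real.log_nonneg hM
    rw [Real.norm_of_nonneg hl, Real.norm_of_nonneg (by positivity), div_mul_eq_mul_div, one_mul,
      le_div_iff₀ (by positivity)] at h3
    nlinarith [abs_nonneg A]
  obtain ⟨M0, hM0⟩ := eventually_atTop.1 ev
  refine ⟨δ, hδ0, M0, ?_⟩
  intro M hM P hP s ℓ L W hW hNO hlen hℓ hL hlam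
  obtain ⟨m1, m2, m3⟩ := hM0 M hM
  have : IsProbabilityMeasure P := hS M (by omega) P hP
  have hM1 : (1 : ℝ) ≤ M := by exact_mod_cast (by omega : 1 ≤ M)
  have hMp : (0 : ℝ) < M := by linarith
  have hlM : 0 ≤ log M := Real.log_nonneg hM1
  have hL1 : 1 ≤ L := by
    rcases Nat.eq_zero_or_pos L with h | h
    · subst h; norm_num at hL
    · exact h
  have hLr : (1 : ℝ) ≤ L := by exact_mod_cast hL1
  set lam := L * rho q ℓ W with hlamd
  have hlam0 : 0 ≤ lam := mul_nonneg (by linarith) (rho_nonneg _ _ _)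
  have hLA : (L : ℝ) ≤ |A| * log M := by
    have h1 : (L : ℝ) ≤ ((s + L + ℓ : ℕ) : ℝ) := by exact_mod_cast (by omega : L ≤ s + L + ℓ)
    have h2 : A * log M ≤ |A| * log M := mul_le_mul_of_nonneg_right (le_abs_self A) hlM
    linarith
  have hWc : (W.card : ℝ) ≤ (q : ℝ) ^ ℓ := by
    have := card_le_card hW
    rw [card_range] at this
    exact_mod_cast this
  have hqℓ : (q : ℝ) ^ ℓ ≤ (M : ℝ) ^ κ := by
    have h1 : (q : ℝ) ^ ℓ = Real.exp (ℓ * log q) := by
      rw [Real.exp_nat_mul, Real.exp_log (by exact_mod_cast (by omega : 0 < q))]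
    rw [h1, Real.rpow_def_of_pos hMp]
    apply Real.exp_le_exp.2
    calc (ℓ : ℝ) * log q ≤ δ * L * log q := by gcongr
      _ ≤ δ * (|A| * log M) * log q := by gcongr
      _ = (δ * (|A| * log q)) * log M := by ring
      _ ≤ κ * log M := by
          apply mul_le_mul_of_nonneg_right _ hlM
          refine le_trans ?_ hδ2
          apply mul_le_mul_of_nonneg_left _ hδ0.le
          nlinarith
      _ = log M * κ := mul_comm _ _
  have hLq : (L * W.card : ℝ) ≤ (M : ℝ) ^ (2 * κ) := by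
    calc (L * W.card : ℝ) ≤ (M : ℝ) ^ κ * (M : ℝ) ^ κ := by
          apply mul_le_mul (hLA.trans m1) (hWc.trans hqℓ) (by positivity) (by positivity)
      _ = _ := by rw [← Real.rpow_add hMp]; congr 1; ring
  have hbin : ∀ r ≤ j + T, |bin P (fun i => Aw q ℓ W (s + i)) L r - lam ^ r / r.factorial| ≤ η := by
    intro r hr
    have h1 := bin_comp P (by omega : 1 ≤ q) W s L r (C * (M : ℝ) ^ (-δ')) (by positivity) (fun n c hn =>
      htw r hr M (by omega) P hP n (fun _ => ℓ) c (fun i => by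
        refine le_trans ?_ hlen
        exact_mod_cast hn i))
    have h2 : (L * W.card : ℝ) ^ r * (C * (M : ℝ) ^ (-δ')) ≤ η / 2 := by
      refine le_trans ?_ m2
      have h3 : (L * W.card : ℝ) ^ r ≤ (M : ℝ) ^ (δ' / 2) := by
        calc (L * W.card : ℝ) ^ r ≤ ((M : ℝ) ^ (2 * κ)) ^ r := by gcongr
          _ = (M : ℝ) ^ (2 * κ * r) := by rw [← Real.rpow_natCast, ← Real.rpow_mul hMp.le]
          _ ≤ _ := by
            apply Real.rpow_le_rpow_of_exponent_le hM1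
            have h4 : (r : ℝ) ≤ R := by exact_mod_cast (by omega : r ≤ R)
            calc 2 * κ * r ≤ 2 * κ * R := by gcongr
              _ = δ' / 2 := by rw [hκ]; field_simp; ring
      calc (L * W.card : ℝ) ^ r * (C * (M : ℝ) ^ (-δ')) ≤ (M : ℝ) ^ (δ' / 2) * (C * (M : ℝ) ^ (-δ')) := by gcongr
        _ = C * ((M : ℝ) ^ (δ' / 2) * (M : ℝ) ^ (-δ')) := by ring
        _ = _ := by rw [← Real.rpow_add hMp]; congr 2; ring
    have h3 := bin_leb (by omega : 1 ≤ q) hW hNO L r hL1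
    rw [← hlamd] at h3
    have h4 : lam ^ r * ((r ^ 2 + ℓ) / L) ≤ η / 2 := by
      refine le_trans ?_ hδ1
      have h5 : lam ^ r ≤ U := by
        rw [hU]
        calc lam ^ r ≤ max Lam 1 ^ r := pow_le_pow_left₀ hlam0 (hlam.trans (le_max_left _ _)) r
          _ ≤ _ := pow_le_pow_right₀ (le_max_right _ _) (by omega)
      have h6 : ((r : ℝ) ^ 2 + ℓ) / L ≤ δ * (R ^ 2 + 1) := by
        rw [div_le_iff₀ (by linarith)]
        have h7 : (r : ℝ) ≤ R := by exact_mod_cast (by omega : r ≤ R)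
        have h8 : (r : ℝ) ^ 2 ≤ R ^ 2 := by gcongr
        nlinarith
      calc lam ^ r * ((r ^ 2 + ℓ) / L) ≤ U * (δ * (R ^ 2 + 1)) := mul_le_mul h5 h6 (by positivity) (by linarith)
        _ = _ := by ring
    have e : bin P (fun i => Aw q ℓ W (s + i)) L r - lam ^ r / r.factorial =
        (bin P (fun i => Aw q ℓ W (s + i)) L r - bin Leb (Aw q ℓ W) L r) +
        (bin Leb (Aw q ℓ W) L r - lam ^ r / r.factorial) := by ring
    rw [e]
    refine (abs_add_le _ _).trans ?_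
    linarith
  have h1 := poisson_close P (fun i => meas_Aw q ℓ W (s + i)) L j T lam η hlam0 hη0.le hbin
  have h2 := hT1 lam hlam0 hlam
  have h3 : (T + 2) * ((j + T).choose j : ℝ) * η = ε / 2 := by rw [hη]; field_simp
  rw [h3] at h1
  linarith

end Pool.Agent.K4H18.PO
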