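import Pool.Agent.K4H18.PO.P2

/-!
# The Poisson law for rare words: runs of a digit
-/

set_option autoImplicit false

namespace Pool.Agent.K4H18.PO

open Finset Real Filter Topology

/-- the number of the places `i₀ + i`, `i < L`, of `X` with a word of `ℓ` digits in `W` -/
def occ (q ℓ : ℕ) (W : Finset ℕ) (i₀ L X : ℕ) : ℕ := ((range L).filter (fun i => X / q ^ (i₀ + i) % q ^ ℓ ∈ W)).card

/-- among the `D` digits of `X` from the place `i₀` on there are `k` consecutive ones equal to `b` -/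
def HasRun (q b k i₀ D X : ℕ) : Prop := ∃ i, i + k ≤ D ∧ ∀ t < k, X / q ^ (i₀ + i + t) % q = b

/-- the word of `k` digits `b` -/
def rep (q b k : ℕ) : ℕ := ∑ t ∈ range k, b * q ^ t

lemma rep_lt {q b : ℕ} (hb : b < q) (k : ℕ) : rep q b k < q ^ k := by
  induction k with
  | zero => simp [rep]
  | succ k ih =>
    unfold rep at ih ⊢
    rw [sum_range_succ, pow_succ]
    have : b * q ^ k ≤ (q - 1) * q ^ k := Nat.mul_le_mul_right _ (by omega)
    have h2 : (q - 1) * q ^ k = q ^ k * q - q ^ k := by rw [Nat.sub_mul, one_mul, mul_comm]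
    have h3 : q ^ k ≤ q ^ k * q := Nat.le_mul_of_pos_right _ (by omega)
    omega

lemma rep_succ (q b k : ℕ) : rep q b (k + 1) = b * q ^ k + rep q b k := by
  unfold rep
  rw [sum_range_succ, add_comm]

/-- the digits of a word -/
lemma all_iff {q b : ℕ} (hb : b < q) (Z : ℕ) : ∀ k, (∀ t < k, Z / q ^ t % q = b) ↔ Z % q ^ k = rep q b k := by
  have hq : 0 < q := by omega
  intro k
  induction k with
  | zero => simp [rep, Nat.mod_one]
  | succ k ih =>
    have h1 : Z % q ^ (k + 1) = q ^ k * (Z / q ^ k % q) + Z % q ^ k := by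
      rw [pow_succ, Nat.mod_mul, add_comm]
    have h2 : (∀ t < k + 1, Z / q ^ t % q = b) ↔ (∀ t < k, Z / q ^ t % q = b) ∧ Z / q ^ k % q = b := by
      constructor
      · intro h
        exact ⟨fun t ht => h t (by omega), h k (by omega)⟩
      · rintro ⟨ha, hb'⟩ t ht
        rcases Nat.lt_or_ge t k with h | h
        · exact ha t h
        · obtain rfl : t = k := by omega
          exact hb'
    rw [h2, ih, h1, rep_succ]
    have hr := rep_lt hb k
    have hz : Z % q ^ k < q ^ k := Nat.mod_lt _ (pow_pos hq k)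
    constructor
    · rintro ⟨ha, hb'⟩
      rw [ha, hb', mul_comm]
    · intro h
      have hmod : (q ^ k * (Z / q ^ k % q) + Z % q ^ k) % q ^ k = (b * q ^ k + rep q b k) % q ^ k := by rw [h]
      rw [Nat.mul_add_mod, Nat.mod_mod, mul_comm b, Nat.mul_add_mod, Nat.mod_eq_of_lt hr] at hmod
      refine ⟨hmod, ?_⟩
      rw [hmod, mul_comm b] at h
      have h3 : q ^ k * (Z / q ^ k % q) = q ^ k * b := by omega
      exact Nat.eq_of_mul_eq_mul_left (pow_pos hq k) h3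

/-- the words `x b b … b` with `k` digits `b` and `x ≠ b` -/
def Wk (q b k : ℕ) : Finset ℕ := ((range q).filter (fun x => x ≠ b)).image (fun x => x * q ^ k + rep q b k)

lemma mem_Wk {q b k : ℕ} (hb : b < q) (c : ℕ) (hc : c < q ^ (k + 1)) :
    c ∈ Wk q b k ↔ c / q ^ k ≠ b ∧ c % q ^ k = rep q b k := by
  have hq : 0 < q := by omega
  have hr := rep_lt hb k
  unfold Wk
  rw [mem_image]
  constructor
  · rintro ⟨x, hx, rfl⟩
    rw [mem_filter, mem_range] at hx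
    have e1 : (x * q ^ k + rep q b k) / q ^ k = x := by
      rw [mul_comm, Nat.mul_add_div (pow_pos hq k), Nat.div_eq_of_lt hr, add_zero]
    have e2 : (x * q ^ k + rep q b k) % q ^ k = rep q b k := by
      rw [mul_comm, Nat.mul_add_mod, Nat.mod_eq_of_lt hr]
    rw [e1, e2]
    exact ⟨hx.2, rfl⟩
  · rintro ⟨h1, h2⟩
    refine ⟨c / q ^ k, ?_, ?_⟩
    · rw [mem_filter, mem_range]
      refine ⟨?_, h1⟩
      rw [Nat.div_lt_iff_lt_mul (pow_pos hq k)]
      rw [pow_succ, mul_comm] at hc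
      exact hc
    · rw [← h2, mul_comm]
      exact Nat.div_add_mod c (q ^ k)

lemma Wk_sub {q b k : ℕ} (hb : b < q) : Wk q b k ⊆ range (q ^ (k + 1)) := by
  intro c hc
  unfold Wk at hc
  rw [mem_image] at hc
  obtain ⟨x, hx, rfl⟩ := hc
  rw [mem_filter, mem_range] at hx
  rw [mem_range, pow_succ]
  have hr := rep_lt hb k
  have h1 : x * q ^ k ≤ (q - 1) * q ^ k := Nat.mul_le_mul_right _ (by omega)
  have h2 : (q - 1) * q ^ k = q ^ k * q - q ^ k := by rw [Nat.sub_mul, one_mul, mul_comm]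
  have h3 : q ^ k ≤ q ^ k * q := Nat.le_mul_of_pos_right _ (by omega)
  omega

lemma Wk_card {q b k : ℕ} (hb : b < q) : (Wk q b k).card = q - 1 := by
  have hq : 0 < q := by omega
  unfold Wk
  rw [card_image_of_injective]
  · have : (range q).filter (fun x => x ≠ b) = (range q).erase b := by
      ext x
      simp [and_comm]
    rw [this, card_erase_of_mem (mem_range.2 hb), card_range]
  · intro x y h
    have h3 : x * q ^ k = y * q ^ k := by simpa using h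
    exact Nat.eq_of_mul_eq_mul_right (pow_pos hq k) h3

lemma Wk_nonov {q b k : ℕ} (hb : b < q) : NonOv q (k + 1) (Wk q b k) := by
  have hq : 0 < q := by omega
  intro h h1 hk c hc ⟨ha, hb'⟩
  rw [mem_Wk hb _ (by
    rw [Nat.div_lt_iff_lt_mul (pow_pos hq h), ← pow_add]; exact hc)] at ha
  rw [mem_Wk hb _ (Nat.mod_lt _ (pow_pos hq _))] at hb'
  -- the digit of `c` at the place `k`
  have d1 := (all_iff hb (c / q ^ h) k).2 ha.2 (k - h) (by omega)
  rw [Nat.div_div_eq_div_mul, ← pow_add] at d1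
  have e1 : h + (k - h) = k := by omega
  rw [e1] at d1
  apply hb'.1
  rw [pow_succ, Nat.mod_mul_right_div_self]
  exact d1

/-- the empty count and the runs -/
lemma run_iff {q b k : ℕ} (hb : b < q) {i₀ D L X : ℕ} (hL : L + k = D)
    (htop : X / q ^ (i₀ + L) % q ^ k ≠ rep q b k) :
    ¬ HasRun q b k i₀ D X ↔ occ q (k + 1) (Wk q b k) i₀ L X = 0 := by
  have hq : 0 < q := by omega
  have hword : ∀ i, (∀ t < k, X / q ^ (i₀ + i + t) % q = b) ↔ X / q ^ (i₀ + i) % q ^ k = rep q b k := by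
    intro i
    rw [← all_iff hb]
    refine forall₂_congr fun t _ => ?_
    rw [Nat.div_div_eq_div_mul, ← pow_add]
  unfold occ
  rw [card_eq_zero, filter_eq_empty_iff]
  constructor
  · intro h i hi hmem
    apply h
    rw [mem_range] at hi
    refine ⟨i, by omega, (hword i).2 ?_⟩
    rw [mem_Wk hb _ (Nat.mod_lt _ (pow_pos hq _))] at hmem
    rw [← hmem.2, pow_succ, Nat.mod_mul_right_mod]
  · rintro h ⟨i, hi, hrun⟩
    -- the largest place
    have hex : ∃ n, n + i ≤ L ∧ (∀ t < k, X / q ^ (i₀ + (n + i) + t) % q = b) ∧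
        ∀ m, n < m → m + i ≤ L → ¬ ∀ t < k, X / q ^ (i₀ + (m + i) + t) % q = b := by
      classical
      let P : ℕ → Prop := fun n => n + i ≤ L ∧ ∀ t < k, X / q ^ (i₀ + (n + i) + t) % q = b
      have h0 : P 0 := ⟨by omega, by rw [Nat.zero_add]; exact hrun⟩
      have hbd : ∀ n, P n → n ≤ L := fun n hn => by have := hn.1; omega
      refine ⟨Nat.findGreatest P L, (Nat.findGreatest_spec (P := P) (Nat.zero_le L) h0).1,
        (Nat.findGreatest_spec (P := P) (Nat.zero_le L) h0).2, ?_⟩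
      intro m hm hmL hcon
      have := Nat.le_findGreatest (P := P) (by omega : m ≤ L) ⟨hmL, hcon⟩
      omega
    obtain ⟨n, hn1, hn2, hn3⟩ := hex
    rcases Nat.lt_or_ge (n + i) L with hlt | hge
    · have h1 := h (mem_range.2 hlt)
      apply h1
      rw [mem_Wk hb _ (Nat.mod_lt _ (pow_pos hq _))]
      refine ⟨?_, ?_⟩
      · rw [pow_succ, Nat.mod_mul_right_div_self, Nat.div_div_eq_div_mul, ← pow_add]
        intro hcon
        apply hn3 (n + 1) (by omega) (by omega)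
        intro t ht
        rcases Nat.lt_or_ge (t + 1) k with h2 | h2
        · have := hn2 (t + 1) h2
          have e : i₀ + (n + i) + (t + 1) = i₀ + (n + 1 + i) + t := by omega
          rw [e] at this
          exact this
        · have e : i₀ + (n + 1 + i) + t = i₀ + (n + i) + k := by omega
          rw [e]
          exact hcon
      · rw [pow_succ, Nat.mod_mul_right_mod]
        exact (hword _).1 hn2
    · obtain h2 : n + i = L := by omega
      rw [h2] at hn2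
      exact htop ((hword L).1 hn2)

lemma HasRun.mono {q b k k' i₀ D X : ℕ} (hk : k ≤ k') (h : HasRun q b k' i₀ D X) : HasRun q b k i₀ D X := by
  obtain ⟨i, h1, h2⟩ := h
  exact ⟨i, by omega, fun t ht => h2 t (by omega)⟩

/-- a proportion -/
structure IsProp (μ : Set ℕ → ℝ) : Prop where
  mono : ∀ E F : Set ℕ, E ⊆ F → μ E ≤ μ F
  union : ∀ E F : Set ℕ, μ (E ∪ F) ≤ μ E + μ F
  nonneg : ∀ E, 0 ≤ μ E
  le_one : ∀ E, μ E ≤ 1

/-- **the law of the longest run** -/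
theorem run_law {q b : ℕ} (hb : b < q) (hq : 2 ≤ q) (𝓕 : ℕ → Set (ℕ × ℕ × (Set ℕ → ℝ)))
    (hF : ∀ M, ∀ f ∈ 𝓕 M, IsProp f.2.2)
    (hP : ∀ Lam ε : ℝ, 0 < ε → ∃ δ : ℝ, 0 < δ ∧ ∃ M0 : ℕ, ∀ M : ℕ, M0 ≤ M → ∀ f ∈ 𝓕 M, ∀ (ℓ L : ℕ) (W : Finset ℕ),
      W ⊆ range (q ^ ℓ) → NonOv q ℓ W → L + ℓ ≤ f.2.1 + 1 → (ℓ : ℝ) ≤ δ * L → 1 ≤ δ * L → L * rho q ℓ W ≤ Lam →
      |f.2.2 {X | occ q ℓ W f.1 L X = 0} - Real.exp (-(L * rho q ℓ W))| ≤ ε)
    (hB : ∀ ε : ℝ, 0 < ε → ∃ M0 : ℕ, ∀ M : ℕ, M0 ≤ M → ∀ f ∈ 𝓕 M, ∀ i k c : ℕ, i + k ≤ f.2.1 →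
      f.2.2 {X | X / q ^ (f.1 + i) % q ^ k = c} ≤ 2 * (1 / (q : ℝ) ^ k) + ε) (ε : ℝ) (hε : 0 < ε) :
    ∃ D0 M0 : ℕ, ∀ M : ℕ, M0 ≤ M → ∀ f ∈ 𝓕 M, D0 ≤ f.2.1 → ∀ k : ℕ,
      |f.2.2 {X | ¬ HasRun q b k f.1 f.2.1 X} - Real.exp (-((1 - 1 / (q : ℝ)) * (f.2.1 / (q : ℝ) ^ k)))| ≤ ε := by
  have hqR : (2 : ℝ) ≤ q := by exact_mod_cast hq
  have hq0 : (0 : ℝ) < q := by linarith
  set a : ℝ := 1 - 1 / (q : ℝ) with ha
  have ha2 : 1 / 2 ≤ a := by
    rw [ha]
    have : 1 / (q : ℝ) ≤ 1 / 2 := one_div_le_one_div_of_le (by norm_num) hqR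
    linarith
  have ha1 : a ≤ 1 := by rw [ha]; have : 0 < 1 / (q : ℝ) := by positivity
                         linarith
  obtain ⟨ε', hε'⟩ : ∃ ε' : ℝ, ε' = min (ε / 8) 1 := ⟨_, rfl⟩
  have hε'0 : 0 < ε' := by rw [hε']; exact lt_min (by positivity) one_pos
  have hε'1 : ε' ≤ 1 := by rw [hε']; exact min_le_right _ _
  have hε'8 : 8 * ε' ≤ ε := by
    have : ε' ≤ ε / 8 := by rw [hε']; exact min_le_left _ _
    linarith
  -- the constant `T0`
  obtain ⟨T0, hT0⟩ : ∃ T0 : ℝ, T0 = 2 * q / ε' + 1 := ⟨_, rfl⟩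
  have hT01 : 1 < T0 := by rw [hT0]; have : 0 < 2 * q / ε' := by positivity
                           linarith
  have hexpT : Real.exp (-(a * (T0 / q))) ≤ ε' := by
    have h1 : 1 / ε' ≤ a * (T0 / q) := by
      have h2 : 2 / ε' ≤ T0 / q := by
        rw [le_div_iff₀ hq0]
        have : 2 / ε' * q = 2 * q / ε' := by ring
        rw [this, hT0]; linarith
      have h3 : 0 < 2 / ε' := by positivity
      calc 1 / ε' = 1 / 2 * (2 / ε') := by ring
        _ ≤ a * (T0 / q) := by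
          apply mul_le_mul ha2 h2 h3.le (by linarith)
    have h4 : Real.exp (-(a * (T0 / q))) ≤ Real.exp (-(1 / ε')) := Real.exp_le_exp.2 (by linarith)
    refine h4.trans ?_
    rw [Real.exp_neg]
    have h5 := Real.add_one_le_exp (1 / ε')
    rw [inv_le_comm₀ (Real.exp_pos _) hε'0, ← one_div]
    linarith
  obtain ⟨δ, hδ, M1, hPo⟩ := hP T0 ε' hε'0
  obtain ⟨M2, hB2⟩ := hB ε' hε'0
  obtain ⟨δ₁, hδ₁⟩ : ∃ δ₁ : ℝ, δ₁ = min (δ / 4) (1 / 4) := ⟨_, rfl⟩
  have hδ₁0 : 0 < δ₁ := by rw [hδ₁]; exact lt_min (by positivity) (by norm_num)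
  have hδ₁a : δ₁ ≤ δ / 4 := by rw [hδ₁]; exact min_le_left _ _
  have hδ₁b : δ₁ ≤ 1 / 4 := by rw [hδ₁]; exact min_le_right _ _
  -- large `D`
  have evD : ∀ᶠ D : ℕ in atTop, T0 < D ∧ 4 ≤ δ * D ∧ 2 ≤ δ₁ * D ∧ T0 / D ≤ ε' ∧
      (D : ℝ) / (q : ℝ) ^ ⌊δ₁ * D⌋₊ ≤ ε' ∧ (⌊δ₁ * D⌋₊ : ℝ) * (T0 / D) ≤ T0 ∧
      ∀ k : ℕ, (D : ℝ) / (q : ℝ) ^ k ≤ T0 → (k : ℝ) / (q : ℝ) ^ k ≤ ε' := by
    have hn : Tendsto (fun D : ℕ => (D : ℝ)) atTop atTop := tendsto_natCast_atTop_atTop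
    have t1 : Tendsto (fun D : ℕ => T0 / (D : ℝ)) atTop (𝓝 0) := tendsto_const_div_atTop_nhds_zero_nat T0
    have hk0 : Tendsto (fun k : ℕ => (k : ℝ) / (q : ℝ) ^ k) atTop (𝓝 0) := by
      have := tendsto_pow_const_div_const_pow_of_one_lt 1 (show (1 : ℝ) < q by linarith)
      simpa using this
    have t2 : ∀ᶠ D : ℕ in atTop, (D : ℝ) / (q : ℝ) ^ ⌊δ₁ * D⌋₊ ≤ ε' := by
      have hf : Tendsto (fun D : ℕ => ⌊δ₁ * (D : ℝ)⌋₊) atTop atTop :=
        tendsto_nat_floor_atTop.comp (hn.const_mul_atTop hδ₁0)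
      have h1 := hf.eventually (hk0.eventually (gt_mem_nhds (show (0 : ℝ) < ε' * δ₁ / 2 by positivity)))
      filter_upwards [h1, (hn.const_mul_atTop hδ₁0).eventually_ge_atTop 2] with D h2 h3
      have h4 : δ₁ * D < ⌊δ₁ * (D : ℝ)⌋₊ + 1 := Nat.lt_floor_add_one _
      have h5 : (D : ℝ) ≤ 2 / δ₁ * ⌊δ₁ * (D : ℝ)⌋₊ := by
        rw [div_mul_eq_mul_div, le_div_iff₀ hδ₁0]
        linarith
      have hqp : (0 : ℝ) < (q : ℝ) ^ ⌊δ₁ * (D : ℝ)⌋₊ := by positivity
      calc (D : ℝ) / (q : ℝ) ^ ⌊δ₁ * (D : ℝ)⌋₊ ≤ (2 / δ₁ * ⌊δ₁ * (D : ℝ)⌋₊) / (q : ℝ) ^ ⌊δ₁ * (D : ℝ)⌋₊ := by gcongr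
        _ = 2 / δ₁ * (⌊δ₁ * (D : ℝ)⌋₊ / (q : ℝ) ^ ⌊δ₁ * (D : ℝ)⌋₊) := by ring
        _ ≤ 2 / δ₁ * (ε' * δ₁ / 2) := by gcongr
        _ = ε' := by field_simp
    obtain ⟨k1, hk1⟩ := eventually_atTop.1 (hk0.eventually (gt_mem_nhds hε'0))
    have t3 : ∀ᶠ D : ℕ in atTop, T0 * (q : ℝ) ^ k1 < D := hn.eventually_gt_atTop _
    filter_upwards [hn.eventually_gt_atTop T0, (hn.const_mul_atTop hδ).eventually_ge_atTop 4,
      (hn.const_mul_atTop hδ₁0).eventually_ge_atTop 2, t1.eventually (gt_mem_nhds hε'0), t2, t3] with D a1 a2 a3 a4 a5 a6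
    have hD0 : (0 : ℝ) < D := by linarith
    refine ⟨a1, a2, a3, a4.le, a5, ?_, ?_⟩
    · have h1 : (⌊δ₁ * (D : ℝ)⌋₊ : ℝ) ≤ δ₁ * D := Nat.floor_le (by positivity)
      calc (⌊δ₁ * (D : ℝ)⌋₊ : ℝ) * (T0 / D) ≤ D * (T0 / D) := by
            apply mul_le_mul_of_nonneg_right _ (by positivity)
            nlinarith
        _ = T0 := by field_simp
    · intro k hk
      apply le_of_lt
      apply hk1
      by_contra hcon
      push Not at hcon
      have h1 : (q : ℝ) ^ k ≤ (q : ℝ) ^ k1 := pow_le_pow_right₀ (by linarith) hcon.le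
      have h2 : (0 : ℝ) < (q : ℝ) ^ k := by positivity
      rw [div_le_iff₀ h2] at hk
      have h3 : T0 * (q : ℝ) ^ k ≤ T0 * (q : ℝ) ^ k1 := by gcongr
      linarith
  obtain ⟨D0, hD0⟩ := eventually_atTop.1 evD
  refine ⟨D0, max M1 M2, ?_⟩
  intro M hM f hf hD k
  have hM1 : M1 ≤ M := (le_max_left _ _).trans hM
  have hM2 : M2 ≤ M := (le_max_right _ _).trans hM
  obtain ⟨i₀, D, μ⟩ := f
  simp only at hD ⊢
  have hμ : IsProp μ := hF M _ hf
  obtain ⟨d1, d2, d3, d4, d5, -, d7⟩ := hD0 D hD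
  have hDp : (0 : ℝ) < D := by linarith
  set K4 := ⌊δ₁ * (D : ℝ)⌋₊ with hK4
  have hK4a : (K4 : ℝ) ≤ δ₁ * D := Nat.floor_le (by positivity)
  have hK4D : (K4 : ℝ) ≤ D / 4 := by nlinarith
  -- the middle range
  have hmid : ∀ k : ℕ, k ≤ K4 → (D : ℝ) / (q : ℝ) ^ k ≤ T0 →
      |μ {X | ¬ HasRun q b k i₀ D X} - Real.exp (-(a * (D / (q : ℝ) ^ k)))| ≤ 5 * ε' := by
    intro k hk hkT
    have hkD : (k : ℝ) ≤ D / 4 := le_trans (by exact_mod_cast hk) hK4D
    have hkD' : k ≤ D := by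
      have : (k : ℝ) ≤ D := by linarith
      exact_mod_cast this
    obtain ⟨L, hL⟩ : ∃ L, L + k = D := ⟨D - k, by omega⟩
    have hLR : (L : ℝ) + k = D := by exact_mod_cast hL
    have hLD : (D : ℝ) / 2 ≤ L := by linarith
    have hρ : rho q (k + 1) (Wk q b k) = a / (q : ℝ) ^ k := by
      unfold rho
      rw [Wk_card hb, Nat.cast_sub (by omega), pow_succ, ha]
      push_cast
      field_simp
    have h1 := hPo M hM1 (i₀, D, μ) hf (k + 1) L (Wk q b k) (Wk_sub hb) (Wk_nonov hb) (by simp only; omega) (by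
      push_cast
      have h2 : (k : ℝ) ≤ δ₁ * D := le_trans (by exact_mod_cast hk) hK4a
      nlinarith) (by nlinarith) (by
      rw [hρ]
      have h3 : (L : ℝ) ≤ D := by linarith
      have h4 : (0 : ℝ) < (q : ℝ) ^ k := by positivity
      calc (L : ℝ) * (a / (q : ℝ) ^ k) ≤ D * (1 / (q : ℝ) ^ k) := by
            apply mul_le_mul h3 _ (by positivity) hDp.le
            gcongr
        _ = D / (q : ℝ) ^ k := by ring
        _ ≤ T0 := hkT)
    simp only at h1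
    rw [hρ] at h1
    set E0 : Set ℕ := {X | occ q (k + 1) (Wk q b k) i₀ L X = 0} with hE0
    set E1 : Set ℕ := {X | ¬ HasRun q b k i₀ D X} with hE1
    set E2 : Set ℕ := {X | X / q ^ (i₀ + L) % q ^ k = rep q b k} with hE2
    have s1 : E1 ⊆ E0 ∪ E2 := by
      intro X hX
      by_cases h : X ∈ E2
      · exact Or.inr h
      · exact Or.inl ((run_iff hb hL h).1 hX)
    have s2 : E0 ⊆ E1 ∪ E2 := by
      intro X hX
      by_cases h : X ∈ E2
      · exact Or.inr h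
      · exact Or.inl ((run_iff hb hL h).2 hX)
    have g1 := (hμ.mono _ _ s1).trans (hμ.union _ _)
    have g2 := (hμ.mono _ _ s2).trans (hμ.union _ _)
    have g3 := hB2 M hM2 (i₀, D, μ) hf L k (rep q b k) (by simp only; omega)
    simp only at g3
    have g4 : 1 / (q : ℝ) ^ k ≤ ε' := by
      have h4 : (0 : ℝ) < (q : ℝ) ^ k := by positivity
      rw [div_le_iff₀ h4] at hkT
      have h5 : 1 / (q : ℝ) ^ k ≤ T0 / D := by
        rw [div_le_div_iff₀ h4 hDp]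
        linarith
      exact h5.trans d4
    have g5 : |Real.exp (-(L * (a / (q : ℝ) ^ k))) - Real.exp (-(a * (D / (q : ℝ) ^ k)))| ≤ ε' := by
      have h4 : (0 : ℝ) < (q : ℝ) ^ k := by positivity
      have h6 : a * (D / (q : ℝ) ^ k) = L * (a / (q : ℝ) ^ k) + a * (k / (q : ℝ) ^ k) := by
        rw [← hLR]; ring
      have h7 : 0 ≤ a * ((k : ℝ) / (q : ℝ) ^ k) := by positivity
      have h8 : a * ((k : ℝ) / (q : ℝ) ^ k) ≤ ε' := by
        have := d7 k hkT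
        have h9 : 0 ≤ (k : ℝ) / (q : ℝ) ^ k := by positivity
        nlinarith
      rw [h6, neg_add, Real.exp_add]
      have h9 : Real.exp (-(L * (a / (q : ℝ) ^ k))) ≤ 1 := Real.exp_le_one_iff.2 (by
        have : 0 ≤ (L : ℝ) * (a / (q : ℝ) ^ k) := by positivity
        linarith)
      have h10 : 0 < Real.exp (-(L * (a / (q : ℝ) ^ k))) := Real.exp_pos _
      have h11 := Real.add_one_le_exp (-(a * ((k : ℝ) / (q : ℝ) ^ k)))
      have h12 : Real.exp (-(a * ((k : ℝ) / (q : ℝ) ^ k))) ≤ 1 := Real.exp_le_one_iff.2 (by linarith)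
      rw [abs_le]
      constructor <;> nlinarith
    have g6 := abs_le.1 h1
    have g7 := abs_le.1 g5
    have e1 : (-((L : ℝ) * (a / (q : ℝ) ^ k))) = -(L * (a / (q : ℝ) ^ k)) := rfl
    rw [abs_le]
    constructor
    · linarith [g6.1, g7.1, g2, g3, g4]
    · linarith [g6.2, g7.2, g1, g3, g4]
  have hexp0 : ∀ k : ℕ, 0 < Real.exp (-(a * (D / (q : ℝ) ^ k))) := fun k => Real.exp_pos _
  have hexp1 : ∀ k : ℕ, Real.exp (-(a * (D / (q : ℝ) ^ k))) ≤ 1 := fun k => Real.exp_le_one_iff.2 (by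
    have : 0 ≤ a * ((D : ℝ) / (q : ℝ) ^ k) := by positivity
    linarith)
  -- the least `K1` with `D / q ^ K1 ≤ T0`
  have hK4T : (D : ℝ) / (q : ℝ) ^ K4 ≤ T0 := by linarith
  have hexK : ∃ k : ℕ, (D : ℝ) / (q : ℝ) ^ k ≤ T0 := ⟨K4, hK4T⟩
  classical
  obtain ⟨K1, hK1⟩ : ∃ K1 : ℕ, K1 = Nat.find hexK := ⟨_, rfl⟩
  have hK1a : (D : ℝ) / (q : ℝ) ^ K1 ≤ T0 := by rw [hK1]; exact Nat.find_spec hexK
  have hK1b : ∀ j < K1, T0 < (D : ℝ) / (q : ℝ) ^ j := fun j hj => by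
    rw [hK1] at hj
    exact not_le.1 (Nat.find_min hexK hj)
  have hK14 : K1 ≤ K4 := by rw [hK1]; exact Nat.find_min' hexK hK4T
  have hK10 : K1 ≠ 0 := by
    rintro h
    rw [h, pow_zero, div_one] at hK1a
    linarith
  have hanti : ∀ i j : ℕ, i ≤ j → (D : ℝ) / (q : ℝ) ^ j ≤ D / (q : ℝ) ^ i := by
    intro i j hij
    have h1 : (q : ℝ) ^ i ≤ (q : ℝ) ^ j := pow_le_pow_right₀ (by linarith) hij
    have h2 : (0 : ℝ) < (q : ℝ) ^ i := by positivity
    gcongr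
  have hset : ∀ i j : ℕ, i ≤ j → ({X | ¬ HasRun q b i i₀ D X} : Set ℕ) ⊆ {X | ¬ HasRun q b j i₀ D X} := by
    intro i j hij X hX hcon
    exact hX (hcon.mono hij)
  rcases Nat.lt_or_ge k K1 with hk | hk
  · have h1 := hmid K1 hK14 hK1a
    have h2 : T0 / q ≤ (D : ℝ) / (q : ℝ) ^ K1 := by
      obtain ⟨j, rfl⟩ : ∃ j, K1 = j + 1 := ⟨K1 - 1, by omega⟩
      have h3 := hK1b j (by omega)
      rw [pow_succ, ← div_div]
      gcongr
    have h3 : Real.exp (-(a * (D / (q : ℝ) ^ K1))) ≤ ε' := by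
      refine le_trans (Real.exp_le_exp.2 ?_) hexpT
      have : a * (T0 / q) ≤ a * (D / (q : ℝ) ^ K1) := by gcongr
      linarith
    have h4 : Real.exp (-(a * (D / (q : ℝ) ^ k))) ≤ ε' := by
      refine le_trans (Real.exp_le_exp.2 ?_) h3
      have : a * (D / (q : ℝ) ^ K1) ≤ a * (D / (q : ℝ) ^ k) := by
        apply mul_le_mul_of_nonneg_left (hanti k K1 hk.le)
        linarith
      linarith
    have h5 := hμ.mono _ _ (hset k K1 hk.le)
    have h6 := hμ.nonneg {X | ¬ HasRun q b k i₀ D X}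
    have h7 := (abs_le.1 h1).2
    have h8 := hexp0 k
    rw [abs_le]
    constructor <;> linarith
  · rcases Nat.lt_or_ge K4 k with hk4 | hk4
    · have h1 := hmid K4 le_rfl hK4T
      have h2 : 1 - ε' ≤ Real.exp (-(a * (D / (q : ℝ) ^ K4))) := by
        have h3 := Real.add_one_le_exp (-(a * (D / (q : ℝ) ^ K4)))
        have h4 : a * (D / (q : ℝ) ^ K4) ≤ 1 * ε' := by
          apply mul_le_mul ha1 d5 (by positivity) (by norm_num)
        linarith
      have h3 : Real.exp (-(a * (D / (q : ℝ) ^ K4))) ≤ Real.exp (-(a * (D / (q : ℝ) ^ k))) := by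
        apply Real.exp_le_exp.2
        have : a * (D / (q : ℝ) ^ k) ≤ a * (D / (q : ℝ) ^ K4) := by
          apply mul_le_mul_of_nonneg_left (hanti K4 k hk4.le)
          linarith
        linarith
      have h4 := hμ.mono _ _ (hset K4 k hk4.le)
      have h5 := hμ.le_one {X | ¬ HasRun q b k i₀ D X}
      have h6 := (abs_le.1 h1).1
      have h7 := hexp1 k
      rw [abs_le]
      constructor <;> linarith
    · have h1 := hmid k hk4 ((hanti K1 k hk).trans hK1a)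
      linarith

end Pool.Agent.K4H18.PO
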