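import Pool.Agent.K4H18.PO.P3
import Pool.Agent.K4H18.PO.P4
import Pool.Agent.K4H18.DM.B2

/-!
# The Poisson law for rare words: the multiples of powers
-/

set_option autoImplicit false

namespace Pool.Agent.K4H18.PO

open Finset Real MeasureTheory Filter Topology
open Pool.Agent.Y933.KD Pool.Agent.Y933.KE

open Classical in
/-- the proportion of the `m ∈ s` with `X m ∈ E` -/
noncomputable def pr {ι : Type*} (s : Finset ι) (X : ι → ℕ) (E : Set ℕ) : ℝ :=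
  ((s.filter (fun m => X m ∈ E)).card : ℝ) / s.card

lemma pr_prop {ι : Type*} (s : Finset ι) (X : ι → ℕ) : IsProp (pr s X) where
  mono := by
    classical
    intro E F h
    unfold pr
    gcongr
  union := by
    classical
    intro E F
    unfold pr
    rw [← add_div]
    gcongr
    rw [← Nat.cast_add]
    apply Nat.cast_le.2
    refine (card_le_card ?_).trans (card_union_le _ _)
    intro m hm
    simp only [mem_filter] at hm
    simp only [mem_union, mem_filter]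
    rcases hm.2 with h | h
    · exact Or.inl ⟨hm.1, h⟩
    · exact Or.inr ⟨hm.1, h⟩
  nonneg := fun E => by unfold pr; positivity
  le_one := by
    classical
    intro E
    unfold pr
    apply div_le_one_of_le₀ _ (Nat.cast_nonneg _)
    exact_mod_cast card_filter_le _ _

lemma pr_eq {ι : Type*} (s : Finset ι) (X : ι → ℕ) (E : Set ℕ) (p : ι → Prop) [DecidablePred p]
    (h : ∀ m ∈ s, (X m ∈ E ↔ p m)) : pr s X E = ((s.filter p).card : ℝ) / s.card := by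
  unfold pr
  congr 2
  apply congrArg
  ext m
  simp only [mem_filter]
  constructor
  · rintro ⟨h1, h2⟩
    exact ⟨h1, (h m h1).1 h2⟩
  · rintro ⟨h1, h2⟩
    exact ⟨h1, (h m h1).2 h2⟩

/-- the counts -/
lemma num_occ {q : ℕ} (hq : 1 ≤ q) {ℓ i₀ L J : ℕ} (W : Finset ℕ) (h : i₀ + L + ℓ = J + 1) (X : ℕ) {θ : ℝ}
    (hθ : θ ∈ Set.Ico (0 : ℝ) 1) :
    num (fun i => Aw q ℓ W (0 + i)) L (((X : ℝ) + θ) / (q : ℝ) ^ J) = occ q ℓ W i₀ L X := by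
  classical
  have h1 := sum_places hq (fun c => if c ∈ W then (1 : ℝ) else 0) (s := i₀) (s' := 0) (L := L) (w := ℓ) (J := J)
    (by omega) X hθ
  rw [sum_boole, sum_boole] at h1
  unfold num occ Aw
  have h2 : ((range L).filter (fun i => wd q ℓ (0 + i) (((X : ℝ) + θ) / (q : ℝ) ^ J) ∈ W)).card =
      ((range L).filter (fun i => X / q ^ (i₀ + i) % q ^ ℓ ∈ W)).card := by exact_mod_cast h1
  rw [← h2]
  apply congrArg
  ext i
  simp only [mem_filter, Set.mem_ofPred_eq]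

lemma Leb_word_le {q : ℕ} (hq : 1 ≤ q) (k n c : ℕ) : Leb.real {x | wd q k n x = c} ≤ 1 / (q : ℝ) ^ k := by
  have h1 := int_word hq k n (fun d => if d = c then (1 : ℝ) else 0)
  have hm : MeasurableSet {x | wd q k n x = c} := measurableSet_eq_fun (measurable_wd _ _ _) measurable_const
  have h2 : ∫ x, (fun d => if d = c then (1 : ℝ) else 0) (wd q k n x) ∂Leb = Leb.real {x | wd q k n x = c} := by
    rw [← integral_indicator_one hm]
    congr 1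
    funext x
    simp [Set.indicator_apply]
  rw [← h2, h1]
  gcongr
  rw [sum_ite_eq']
  split_ifs <;> norm_num

/-- one word -/
lemma word_le {q : ℕ} (hq : 1 ≤ q) {A : ℝ} {S : ℕ → Set (Measure ℝ)} (hT : ∀ r, TW q r A S) (ε : ℝ) (hε : 0 < ε) :
    ∃ M0 : ℕ, ∀ M : ℕ, M0 ≤ M → ∀ P ∈ S M, ∀ k n c : ℕ, (n : ℝ) + k ≤ A * log M →
      P.real {x | wd q k n x = c} ≤ 1 / (q : ℝ) ^ k + ε := by
  obtain ⟨δ, hδ, C, h⟩ := hT 1
  have hpow : Tendsto (fun M : ℕ => C * (M : ℝ) ^ (-δ)) atTop (𝓝 (C * 0)) := by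
    have h1 : Tendsto (fun M : ℕ => (M : ℝ) ^ (-δ)) atTop (𝓝 0) :=
      (tendsto_rpow_neg_atTop hδ).comp tendsto_natCast_atTop_atTop
    exact h1.const_mul _
  rw [mul_zero] at hpow
  obtain ⟨M0, hM0⟩ := eventually_atTop.1 (hpow.eventually (gt_mem_nhds hε))
  refine ⟨max M0 1, fun M hM P hP k n c hn => ?_⟩
  have h1 := h M ((le_max_right _ _).trans hM) P hP (fun _ => n) (fun _ => k) (fun _ => c) (fun _ => hn)
  have e : WE q (fun _ : Fin 1 => n) (fun _ => k) (fun _ => c) = {x | wd q k n x = c} := by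
    ext x
    unfold WE
    simp
  rw [e] at h1
  have h2 := (abs_le.1 h1).2
  have h3 := hM0 M ((le_max_left _ _).trans hM)
  have h4 := Leb_word_le hq k n c
  linarith

/-- the family for the multiples: windows `[i₀, i₀ + D)` with `q ^ (i₀ + D) ≤ p ^ N M ^ (1 - 3 κ)` -/
def Fmul (p q : ℕ) (A' κ : ℝ) (M : ℕ) : Set (ℕ × ℕ × (Set ℕ → ℝ)) :=
  {f | ∃ N y : ℕ, (N : ℝ) ≤ A' * log M ∧ (q : ℝ) ^ (f.1 + f.2.1) ≤ (p : ℝ) ^ N * (M : ℝ) ^ (1 - 3 * κ) ∧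
    f.2.2 = pr (Icc 1 M) (fun m => m * p ^ N + y)}

lemma size_le {p q : ℕ} (hp : 2 ≤ p) (hq : 2 ≤ q) {A' κ : ℝ} (hκ : 0 < κ) {M N J : ℕ} (hM : 1 ≤ M)
    (hN : (N : ℝ) ≤ A' * log M) (hJ : (q : ℝ) ^ J ≤ (p : ℝ) ^ N * (M : ℝ) ^ (1 - 3 * κ)) :
    (J : ℝ) ≤ (|A'| * log p + 1) / log q * log M := by
  have hpR : (2 : ℝ) ≤ p := by exact_mod_cast hp
  have hqR : (2 : ℝ) ≤ q := by exact_mod_cast hq
  have hMR : (1 : ℝ) ≤ M := by exact_mod_cast hM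
  have hlq : 0 < log (q : ℝ) := Real.log_pos (by linarith)
  have hlp : 0 < log (p : ℝ) := Real.log_pos (by linarith)
  have hlM : 0 ≤ log (M : ℝ) := Real.log_nonneg hMR
  have h1 := Real.log_le_log (by positivity) hJ
  rw [Real.log_mul (by positivity) (by positivity), Real.log_pow, Real.log_pow, Real.log_rpow (by linarith)] at h1
  rw [div_mul_eq_mul_div, le_div_iff₀ hlq]
  have h2 : (N : ℝ) ≤ |A'| * log M := hN.trans (mul_le_mul_of_nonneg_right (le_abs_self _) hlM)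
  have h3 : (N : ℝ) * log p ≤ |A'| * log M * log p := by gcongr
  have h4 : (1 - 3 * κ) * log M ≤ log M := by nlinarith
  nlinarith

open Classical in
/-- **the Poisson law for the multiples** -/
theorem poisson_mul {p q : ℕ} (hp : 2 ≤ p) (hq : 2 ≤ q) (hpq : p.Coprime q) (A' κ : ℝ) (hκ : 0 < κ) (hκ3 : 3 * κ ≤ 1)
    (Lam : ℝ) (j : ℕ) (ε : ℝ) (hε : 0 < ε) :
    ∃ δ : ℝ, 0 < δ ∧ ∃ M0 : ℕ, ∀ M : ℕ, M0 ≤ M → ∀ f ∈ Fmul p q A' κ M, ∀ (ℓ L : ℕ) (W : Finset ℕ),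
      W ⊆ range (q ^ ℓ) → NonOv q ℓ W → L + ℓ ≤ f.2.1 + 1 → (ℓ : ℝ) ≤ δ * L → 1 ≤ δ * L → L * rho q ℓ W ≤ Lam →
      |f.2.2 {X | occ q ℓ W f.1 L X = j} - Real.exp (-(L * rho q ℓ W)) * (L * rho q ℓ W) ^ j / j.factorial| ≤ ε := by
  obtain ⟨A, hA⟩ : ∃ A : ℝ, A = (|A'| * log p + 1) / log q + 1 := ⟨_, rfl⟩
  obtain ⟨δ, hδ, M0, h⟩ := poisson_TW hq (fun r => Pool.Agent.K4H18.DM.tw_pow2 hp hq hpq A' κ hκ hκ3 r A)
    (Pool.Agent.K4H18.DM.SP2_prob p q A' κ) Lam j ε hε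
  refine ⟨δ, hδ, max M0 3, ?_⟩
  intro M hM f hf ℓ L W hW hNO hLD hℓ hL hlam
  obtain ⟨i₀, D, μ⟩ := f
  obtain ⟨N, y, hN, hJ, hμ⟩ := hf
  simp only at hLD hJ hμ ⊢
  subst hμ
  have hM3 : 3 ≤ M := (le_max_right _ _).trans hM
  have hL1 : 1 ≤ L := by
    rcases Nat.eq_zero_or_pos L with h | h
    · subst h; norm_num at hL
    · exact h
  obtain ⟨J, hJd⟩ : ∃ J, i₀ + L + ℓ = J + 1 := ⟨i₀ + L + ℓ - 1, by omega⟩
  have hqR : (1 : ℝ) ≤ q := by exact_mod_cast (by omega : 1 ≤ q)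
  have hJ2 : (q : ℝ) ^ J ≤ (p : ℝ) ^ N * (M : ℝ) ^ (1 - 3 * κ) :=
    (pow_le_pow_right₀ hqR (by omega)).trans hJ
  have hlM : 1 ≤ log (M : ℝ) := by
    rw [Real.le_log_iff_exp_le (by positivity)]
    have h1 := Real.exp_one_lt_d9
    have h2 : (3 : ℝ) ≤ M := by exact_mod_cast hM3
    linarith
  have hJA := size_le hp hq hκ (by omega) hN hJ2
  have hP : smear (Finset.Icc 1 M) (fun m => m * p ^ N + y) q J ∈ Pool.Agent.K4H18.DM.SP2 p q A' κ M :=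
    ⟨N, J, y, hN, hJ2, rfl⟩
  have h1 := h M ((le_max_left _ _).trans hM) _ hP 0 ℓ L W hW hNO (by
    have h2 : ((0 + L + ℓ : ℕ) : ℝ) ≤ (J : ℝ) + 1 := by exact_mod_cast (by omega : 0 + L + ℓ ≤ J + 1)
    rw [hA, add_mul, one_mul]
    linarith) hℓ hL hlam
  have hE : MeasurableSet {x | num (fun i => Aw q ℓ W (0 + i)) L x = j} :=
    meas_num (fun i => meas_Aw q ℓ W (0 + i)) L (measurableSet_singleton j)
  have h2 := real_smear (s := Finset.Icc 1 M) (fun m => m * p ^ N + y) q J hE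
    (fun m => occ q ℓ W i₀ L (m * p ^ N + y) = j) (fun m _ θ hθ => by
      simp only [Set.mem_ofPred_eq]
      rw [num_occ (by omega) W hJd (m * p ^ N + y) hθ])
  rw [h2] at h1
  rw [pr_eq (Icc 1 M) (fun m => m * p ^ N + y) {X | occ q ℓ W i₀ L X = j}
    (fun m => occ q ℓ W i₀ L (m * p ^ N + y) = j) (fun _ _ => Iff.rfl)]
  exact h1

/-- one word -/
lemma word_mul {p q : ℕ} (hp : 2 ≤ p) (hq : 2 ≤ q) (hpq : p.Coprime q) (A' κ : ℝ) (hκ : 0 < κ) (hκ3 : 3 * κ ≤ 1)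
    (ε : ℝ) (hε : 0 < ε) : ∃ M0 : ℕ, ∀ M : ℕ, M0 ≤ M → ∀ f ∈ Fmul p q A' κ M, ∀ i k c : ℕ, i + k ≤ f.2.1 →
      f.2.2 {X | X / q ^ (f.1 + i) % q ^ k = c} ≤ 1 / (q : ℝ) ^ k + ε := by
  classical
  obtain ⟨A, hA⟩ : ∃ A : ℝ, A = (|A'| * log p + 1) / log q + 1 := ⟨_, rfl⟩
  obtain ⟨M0, h⟩ := word_le (by omega : 1 ≤ q) (fun r => Pool.Agent.K4H18.DM.tw_pow2 hp hq hpq A' κ hκ hκ3 r A) ε hε
  refine ⟨max M0 3, ?_⟩
  intro M hM f hf i k c hik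
  obtain ⟨i₀, D, μ⟩ := f
  obtain ⟨N, y, hN, hJ, hμ⟩ := hf
  simp only at hik hJ hμ ⊢
  subst hμ
  have hM3 : 3 ≤ M := (le_max_right _ _).trans hM
  have hqR : (1 : ℝ) ≤ q := by exact_mod_cast (by omega : 1 ≤ q)
  obtain ⟨J, hJd⟩ : ∃ J, J = i₀ + i + k := ⟨_, rfl⟩
  have hJ2 : (q : ℝ) ^ J ≤ (p : ℝ) ^ N * (M : ℝ) ^ (1 - 3 * κ) :=
    (pow_le_pow_right₀ hqR (by omega)).trans hJ
  have hlM : 0 ≤ log (M : ℝ) := Real.log_nonneg (by exact_mod_cast (by omega : 1 ≤ M))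
  have hJA := size_le hp hq hκ (by omega) hN hJ2
  have hP : smear (Finset.Icc 1 M) (fun m => m * p ^ N + y) q J ∈ Pool.Agent.K4H18.DM.SP2 p q A' κ M :=
    ⟨N, J, y, hN, hJ2, rfl⟩
  have h1 := h M ((le_max_left _ _).trans hM) _ hP k 0 c (by
    have h2 : ((0 : ℕ) : ℝ) + k ≤ (J : ℝ) := by
      rw [Nat.cast_zero, zero_add]
      exact_mod_cast (by omega : k ≤ J)
    rw [hA, add_mul, one_mul]
    linarith)
  have hE : MeasurableSet {x | wd q k 0 x = c} := measurableSet_eq_fun (measurable_wd _ _ _) measurable_const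
  have h2 := real_smear (s := Finset.Icc 1 M) (fun m => m * p ^ N + y) q J hE
    (fun m => (m * p ^ N + y) / q ^ (i₀ + i) % q ^ k = c) (fun m _ θ hθ => by
      simp only [Set.mem_ofPred_eq]
      rw [wd_smear (by omega) (by omega) (m * p ^ N + y) hθ]
      have : J - (0 + k) = i₀ + i := by omega
      rw [this])
  rw [h2] at h1
  rw [pr_eq (Icc 1 M) (fun m => m * p ^ N + y) {X | X / q ^ (i₀ + i) % q ^ k = c}
    (fun m => (m * p ^ N + y) / q ^ (i₀ + i) % q ^ k = c) (fun _ _ => Iff.rfl)]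
  exact h1

/-- **the law of the longest run for the multiples** -/
theorem run_mul {p q b : ℕ} (hp : 2 ≤ p) (hq : 2 ≤ q) (hpq : p.Coprime q) (hb : b < q) (A' κ : ℝ) (hκ : 0 < κ)
    (hκ3 : 3 * κ ≤ 1) (ε : ℝ) (hε : 0 < ε) :
    ∃ D0 M0 : ℕ, ∀ M : ℕ, M0 ≤ M → ∀ f ∈ Fmul p q A' κ M, D0 ≤ f.2.1 → ∀ k : ℕ,
      |f.2.2 {X | ¬ HasRun q b k f.1 f.2.1 X} - Real.exp (-((1 - 1 / (q : ℝ)) * (f.2.1 / (q : ℝ) ^ k)))| ≤ ε := by
  refine run_law hb hq (Fmul p q A' κ) ?_ ?_ ?_ ε hε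
  · intro M f hf
    obtain ⟨N, y, hN, hJ, hμ⟩ := hf
    rw [hμ]
    exact pr_prop _ _
  · intro Lam ε hε
    obtain ⟨δ, hδ, M0, h⟩ := poisson_mul hp hq hpq A' κ hκ hκ3 Lam 0 ε hε
    refine ⟨δ, hδ, M0, fun M hM f hf ℓ L W h1 h2 h3 h4 h5 h6 => ?_⟩
    have := h M hM f hf ℓ L W h1 h2 h3 h4 h5 h6
    simpa using this
  · intro ε hε
    obtain ⟨M0, h⟩ := word_mul hp hq hpq A' κ hκ hκ3 ε hε
    refine ⟨M0, fun M hM f hf i k c hik => ?_⟩
    have h1 := h M hM f hf i k c hik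
    have h2 : 0 ≤ 1 / (q : ℝ) ^ k := by positivity
    linarith

end Pool.Agent.K4H18.PO
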