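import Pool.Agent.K4H18.PO.P5
import Pool.Agent.K4H18.DG.A5

/-!
# The Poisson law for rare words: the lowest digits of powers
-/

set_option autoImplicit false

namespace Pool.Agent.K4H18.PO

open Finset Real MeasureTheory Filter Topology
open Pool.Agent.Y933.KD Pool.Agent.Y933.KE
open Pool.Agent.K4H18.DG (smr smr_prob real_smr_ge SL SL_prob tw_low succ_div_eq)

/-- proportions and probabilities -/
lemma smr_close {ι : Type*} {s : Finset ι} (hs : s.Nonempty) (x : ι → ℝ) (b J : ℕ) {E B : Set ℝ}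
    (hE : MeasurableSet E) (hB : MeasurableSet B) (p : ι → Prop) [DecidablePred p]
    (h : ∀ m ∈ s, ∀ θ ∈ Set.Ico (0 : ℝ) 1, (x m + θ) / (b : ℝ) ^ J ∉ B → (p m ↔ (x m + θ) / (b : ℝ) ^ J ∈ E)) :
    |((s.filter p).card : ℝ) / s.card - (smr s x b J).real E| ≤ (smr s x b J).real B := by
  have := smr_prob hs x b J
  have h1 := real_smr_ge (s := s) x b J (E := E ∪ B) (hE.union hB) p (fun m hm hp θ hθ => by
    by_cases hz : (x m + θ) / (b : ℝ) ^ J ∈ B
    · exact Or.inr hz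
    · exact Or.inl ((h m hm θ hθ hz).1 hp))
  have h2 := real_smr_ge (s := s) x b J (E := Eᶜ ∪ B) (hE.compl.union hB) (fun m => ¬ p m) (fun m hm hp θ hθ => by
    by_cases hz : (x m + θ) / (b : ℝ) ^ J ∈ B
    · exact Or.inr hz
    · exact Or.inl (fun hcon => hp ((h m hm θ hθ hz).2 hcon)))
  have h3 := measureReal_union_le (μ := smr s x b J) E B
  have h4 := measureReal_union_le (μ := smr s x b J) Eᶜ B
  rw [probReal_compl_eq_one_sub hE] at h4
  have hc : (0 : ℝ) < s.card := by exact_mod_cast card_pos.2 hs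
  have h5 : ((s.filter p).card : ℝ) / s.card + ((s.filter (fun m => ¬ p m)).card : ℝ) / s.card = 1 := by
    rw [← add_div, div_eq_one_iff_eq hc.ne']
    exact_mod_cast card_filter_add_card_filter_not (s := s) p
  rw [abs_le]
  constructor <;> linarith

/-- sets of words -/
lemma word_set_le {q : ℕ} (hq : 2 ≤ q) {A : ℝ} {S : ℕ → Set (Measure ℝ)} (hT : ∀ r, TW q r A S)
    (hS : ∀ M, 1 ≤ M → ∀ P ∈ S M, IsProbabilityMeasure P) (ε : ℝ)
    (hε : 0 < ε) : ∃ δ : ℝ, 0 < δ ∧ ∃ M0 : ℕ, ∀ M : ℕ, M0 ≤ M → ∀ P ∈ S M, ∀ (ℓ n : ℕ) (W : Finset ℕ),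
      W ⊆ range (q ^ ℓ) → (n : ℝ) + ℓ ≤ A * log M → (ℓ : ℝ) ≤ δ * log M →
      P.real (Aw q ℓ W n) ≤ rho q ℓ W + ε := by
  obtain ⟨δ', hδ', C, h⟩ := hT 1
  have hlq : 0 < log q := Real.log_pos (by exact_mod_cast (by omega : 1 < q))
  obtain ⟨C1, hC1⟩ : ∃ C1 : ℝ, C1 = max C 0 := ⟨_, rfl⟩
  have hC10 : 0 ≤ C1 := by rw [hC1]; exact le_max_right _ _
  have hpow : Tendsto (fun M : ℕ => C1 * (M : ℝ) ^ (-(δ' / 2))) atTop (𝓝 (C1 * 0)) := by
    have h1 : Tendsto (fun M : ℕ => (M : ℝ) ^ (-(δ' / 2))) atTop (𝓝 0) :=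
      (tendsto_rpow_neg_atTop (by positivity)).comp tendsto_natCast_atTop_atTop
    exact h1.const_mul _
  rw [mul_zero] at hpow
  obtain ⟨M0, hM0⟩ := eventually_atTop.1 (hpow.eventually (gt_mem_nhds hε))
  refine ⟨δ' / (2 * log q), by positivity, max M0 1, ?_⟩
  intro M hM P hP ℓ n W hW hn hℓ
  have hM1 : 1 ≤ M := (le_max_right _ _).trans hM
  have hMR : (1 : ℝ) ≤ M := by exact_mod_cast hM1
  have hMp : (0 : ℝ) < M := by linarith
  have := hS M hM1 P hP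
  have e : Aw q ℓ W n = ⋃ c ∈ W, {x | wd q ℓ n x = c} := by
    ext x
    unfold Aw
    simp
  have h1 : P.real (Aw q ℓ W n) ≤ ∑ c ∈ W, P.real {x | wd q ℓ n x = c} := by
    rw [e]
    exact measureReal_biUnion_finset_le _ _
  refine h1.trans ?_
  have h2 : ∀ c ∈ W, P.real {x | wd q ℓ n x = c} ≤ 1 / (q : ℝ) ^ ℓ + C1 * (M : ℝ) ^ (-δ') := by
    intro c _
    have h1 := h M hM1 P hP (fun _ => n) (fun _ => ℓ) (fun _ => c) (fun _ => hn)
    have e : WE q (fun _ : Fin 1 => n) (fun _ => ℓ) (fun _ => c) = {x | wd q ℓ n x = c} := by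
      ext x
      unfold WE
      simp
    rw [e] at h1
    have h2 := (abs_le.1 h1).2
    have h4 := Leb_word_le (by omega : 1 ≤ q) ℓ n c
    have h5 : C * (M : ℝ) ^ (-δ') ≤ C1 * (M : ℝ) ^ (-δ') := by
      rw [hC1]
      apply mul_le_mul_of_nonneg_right (le_max_left _ _) (by positivity)
    linarith
  refine (sum_le_sum h2).trans ?_
  rw [sum_const, nsmul_eq_mul, mul_add]
  have h3 : (W.card : ℝ) * (1 / (q : ℝ) ^ ℓ) = rho q ℓ W := by unfold rho; ring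
  rw [h3]
  have hWc : (W.card : ℝ) ≤ (q : ℝ) ^ ℓ := by
    have := card_le_card hW
    rw [card_range] at this
    exact_mod_cast this
  have hqℓ : (q : ℝ) ^ ℓ ≤ (M : ℝ) ^ (δ' / 2) := by
    have h1 : (q : ℝ) ^ ℓ = Real.exp (ℓ * log q) := by
      rw [Real.exp_nat_mul, Real.exp_log (by exact_mod_cast (by omega : 0 < q))]
    rw [h1, Real.rpow_def_of_pos hMp]
    apply Real.exp_le_exp.2
    calc (ℓ : ℝ) * log q ≤ δ' / (2 * log q) * log M * log q := by gcongr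
      _ = log M * (δ' / 2) := by field_simp
  have h4 : (W.card : ℝ) * (C1 * (M : ℝ) ^ (-δ')) ≤ ε := by
    refine le_trans ?_ (hM0 M ((le_max_left _ _).trans hM)).le
    calc (W.card : ℝ) * (C1 * (M : ℝ) ^ (-δ')) ≤ (M : ℝ) ^ (δ' / 2) * (C1 * (M : ℝ) ^ (-δ')) := by
          apply mul_le_mul_of_nonneg_right (hWc.trans hqℓ) (by positivity)
      _ = C1 * ((M : ℝ) ^ (δ' / 2) * (M : ℝ) ^ (-δ')) := by ring
      _ = _ := by rw [← Real.rpow_add hMp]; congr 2; ring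
  linarith

/-- the words of `W` and their successors -/
def Wp (q ℓ : ℕ) (W : Finset ℕ) : Finset ℕ := W ∪ W.image (fun c => (c + 1) % q ^ ℓ)

lemma Wp_sub {q ℓ : ℕ} (hq : 1 ≤ q) {W : Finset ℕ} (hW : W ⊆ range (q ^ ℓ)) : Wp q ℓ W ⊆ range (q ^ ℓ) := by
  intro c hc
  unfold Wp at hc
  rw [mem_union, mem_image] at hc
  rcases hc with h | ⟨d, _, rfl⟩
  · exact hW h
  · exact mem_range.2 (Nat.mod_lt _ (pow_pos (by omega) _))

lemma Wp_rho (q ℓ : ℕ) (W : Finset ℕ) : rho q ℓ (Wp q ℓ W) ≤ 2 * rho q ℓ W := by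
  unfold rho
  rw [← mul_div_assoc]
  gcongr
  have h1 : (Wp q ℓ W).card ≤ 2 * W.card := by
    unfold Wp
    refine (card_union_le _ _).trans ?_
    have := card_image_le (s := W) (f := fun c => (c + 1) % q ^ ℓ)
    omega
  exact_mod_cast h1

/-- the bad event: a word of `W` or a successor among the lowest `T` places -/
def Bl (q ℓ : ℕ) (W : Finset ℕ) (i₁ L T : ℕ) : Set ℝ :=
  ⋃ i ∈ (range L).filter (fun i => i₁ + (L - 1 - i) < T), Aw q ℓ (Wp q ℓ W) i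

/-- the points -/
lemma point_occ {q ℓ : ℕ} (hq : 1 ≤ q) (W : Finset ℕ) {s i₀ L J T : ℕ} (hs : s ≤ i₀) (hJ : i₀ + L + ℓ = s + J + 1)
    (hTJ : T ≤ J) (X : ℕ) {θ : ℝ} (hθ : θ ∈ Set.Ico (0 : ℝ) 1)
    (hB : (((X : ℝ) / (q : ℝ) ^ s + θ) / (q : ℝ) ^ J) ∉ {x | wd q T (J - T) x = 0})
    (hB2 : (((X : ℝ) / (q : ℝ) ^ s + θ) / (q : ℝ) ^ J) ∉ Bl q ℓ W (i₀ - s) L T) :
    num (fun i => Aw q ℓ W (0 + i)) L (((X : ℝ) / (q : ℝ) ^ s + θ) / (q : ℝ) ^ J) = occ q ℓ W i₀ L X := by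
  classical
  have hq0 : (0 : ℝ) < q := by exact_mod_cast hq
  have hqs : (0 : ℝ) < (q : ℝ) ^ s := by positivity
  set Y : ℕ := X / q ^ s with hY
  set ρ : ℝ := ((X % q ^ s : ℕ) : ℝ) / (q : ℝ) ^ s with hρ
  have hρ0 : 0 ≤ ρ := by positivity
  have hρ1 : ρ < 1 := by
    rw [hρ, div_lt_one hqs]
    exact_mod_cast Nat.mod_lt X (pow_pos (by omega : 0 < q) s)
  have hx : (X : ℝ) / (q : ℝ) ^ s = Y + ρ := by
    have h1 : (X : ℝ) = (q : ℝ) ^ s * Y + ((X % q ^ s : ℕ) : ℝ) := by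
      exact_mod_cast (Nat.div_add_mod X (q ^ s)).symm
    rw [hρ]
    field_simp
    exact h1
  obtain ⟨Z, θ', hθ', hZ, hZθ⟩ : ∃ (Z : ℕ) (θ' : ℝ), θ' ∈ Set.Ico (0 : ℝ) 1 ∧ (Z = Y ∨ Z = Y + 1) ∧
      (X : ℝ) / (q : ℝ) ^ s + θ = Z + θ' := by
    rcases lt_or_ge (ρ + θ) 1 with h | h
    · exact ⟨Y, ρ + θ, ⟨add_nonneg hρ0 hθ.1, h⟩, Or.inl rfl, by rw [hx]; ring⟩
    · refine ⟨Y + 1, ρ + θ - 1, ⟨by linarith, by linarith [hθ.2]⟩, Or.inr rfl, ?_⟩
      rw [hx]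
      push_cast
      ring
  rw [hZθ] at hB hB2 ⊢
  simp only [Set.mem_ofPred_eq] at hB
  rw [wd_smear hq (by omega) Z hθ'] at hB
  have e1 : J - (J - T + T) = 0 := by omega
  rw [e1, pow_zero, Nat.div_one] at hB
  obtain ⟨i₁, rfl⟩ : ∃ i₁, i₀ = s + i₁ := ⟨i₀ - s, by omega⟩
  rw [Nat.add_sub_cancel_left] at hB2
  have hocc : occ q ℓ W (s + i₁) L X = occ q ℓ W i₁ L Y := by
    unfold occ
    congr 1
    apply filter_congr
    intro i _
    rw [hY, Nat.div_div_eq_div_mul, ← pow_add]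
    have : s + i₁ + i = s + (i₁ + i) := by ring
    rw [this]
  rw [num_occ hq W (i₀ := i₁) (by omega) Z hθ', hocc]
  rcases hZ with rfl | rfl
  · rfl
  · -- a carry
    have hT : ¬ q ^ T ∣ Y + 1 := fun h => hB (Nat.mod_eq_zero_of_dvd h)
    unfold occ
    congr 1
    apply filter_congr
    intro i hi
    rw [mem_range] at hi
    rcases Nat.lt_or_ge (i₁ + i) T with h | h
    · -- the word of `Z`
      have hZw : (Y + 1) / q ^ (i₁ + i) % q ^ ℓ ∉ Wp q ℓ W := by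
        intro hcon
        apply hB2
        unfold Bl
        rw [Set.mem_iUnion₂]
        refine ⟨L - 1 - i, ?_, ?_⟩
        · rw [mem_filter, mem_range]
          constructor
          · omega
          · have : L - 1 - (L - 1 - i) = i := by omega
            rw [this]
            exact h
        · unfold Aw
          simp only [Set.mem_ofPred_eq]
          rw [wd_smear hq (by omega) (Y + 1) hθ']
          have : J - (L - 1 - i + ℓ) = i₁ + i := by omega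
          rw [this]
          exact hcon
      have h1 : (Y + 1) / q ^ (i₁ + i) % q ^ ℓ ∉ W := fun hc => hZw (mem_union_left _ hc)
      have h2 : Y / q ^ (i₁ + i) % q ^ ℓ ∉ W := by
        intro hc
        apply hZw
        unfold Wp
        rw [mem_union, mem_image]
        rw [Nat.succ_div]
        split_ifs with hdvd
        · right
          refine ⟨_, hc, ?_⟩
          rw [Nat.mod_add_mod]
        · left
          exact hc
      exact iff_of_false h1 h2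
    · rw [succ_div_eq hT h]

/-- the family for the lowest digits: windows `[i₀, i₀ + D)` with `s ≤ i₀` and `i₀ + D ≤ A' log M` -/
def Flow (p q s : ℕ) (A' : ℝ) (M : ℕ) : Set (ℕ × ℕ × (Set ℕ → ℝ)) :=
  {f | ∃ l : ℕ, ¬ q ∣ l ∧ s ≤ f.1 ∧ ((f.1 + f.2.1 : ℕ) : ℝ) ≤ A' * log M ∧
    f.2.2 = pr (range M) (fun n => l * p ^ n)}

end Pool.Agent.K4H18.PO
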