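import Pool.Agent.K4H18.PO.P6

/-!
# The Poisson law for rare words: the lowest digits of powers (the theorem)
-/

set_option autoImplicit false

namespace Pool.Agent.K4H18.PO

open Finset Real MeasureTheory Filter Topology
open Pool.Agent.Y933.KD Pool.Agent.Y933.KE
open Pool.Agent.K4H18.DG (smr smr_prob real_smr_ge SL SL_prob tw_low succ_div_eq)

lemma meas_Bl (q ℓ : ℕ) (W : Finset ℕ) (i₁ L T : ℕ) : MeasurableSet (Bl q ℓ W i₁ L T) := by
  unfold Bl
  exact Finset.measurableSet_biUnion _ (fun i _ => meas_Aw q ℓ _ i)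

lemma card_Bl (i₁ L T : ℕ) : ((range L).filter (fun i => i₁ + (L - 1 - i) < T)).card ≤ T := by
  classical
  have h1 : ((range L).filter (fun i => i₁ + (L - 1 - i) < T)).card ≤ (range T).card := by
    apply card_le_card_of_injOn (fun i => L - 1 - i)
    · intro i hi
      simp only [coe_filter, mem_range, Set.mem_setOf_eq] at hi
      simp only [coe_range, Set.mem_Iio]
      omega
    · intro i hi j hj hij
      simp only [coe_filter, mem_range, Set.mem_setOf_eq] at hi hj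
      simp only at hij
      omega
  rwa [card_range] at h1

lemma Bl_le {q ℓ : ℕ} (W : Finset ℕ) (i₁ L T : ℕ) (P : Measure ℝ) [IsProbabilityMeasure P] {η : ℝ} (hη : 0 ≤ η)
    (h : ∀ i < L, P.real (Aw q ℓ (Wp q ℓ W) i) ≤ η) : P.real (Bl q ℓ W i₁ L T) ≤ T * η := by
  unfold Bl
  refine (measureReal_biUnion_finset_le _ _).trans ?_
  refine (sum_le_card_nsmul _ _ η (fun i hi => h i (mem_range.1 (mem_filter.1 hi).1))).trans ?_
  rw [nsmul_eq_mul]
  apply mul_le_mul_of_nonneg_right _ hη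
  exact_mod_cast card_Bl i₁ L T

lemma cast_pow_mul (l p n : ℕ) (x : ℝ) : (l : ℝ) * (p : ℝ) ^ n / x = ((l * p ^ n : ℕ) : ℝ) / x := by
  push_cast
  rfl

/-- **the Poisson law for the lowest digits** -/
theorem poisson_low {q : ℕ} (hq : 2 ≤ q) {p s : ℕ} (hT : ∀ (A' : ℝ) (k : ℕ) (A : ℝ), TW q k A (SL p q s A'))
    (A' Lam : ℝ) (j : ℕ) (ε : ℝ) (hε : 0 < ε) :
    ∃ δ : ℝ, 0 < δ ∧ ∃ M0 : ℕ, ∀ M : ℕ, M0 ≤ M → ∀ f ∈ Flow p q s A' M, ∀ (ℓ L : ℕ) (W : Finset ℕ),
      W ⊆ range (q ^ ℓ) → NonOv q ℓ W → L + ℓ ≤ f.2.1 + 1 → (ℓ : ℝ) ≤ δ * L → 1 ≤ δ * L → L * rho q ℓ W ≤ Lam →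
      |f.2.2 {X | occ q ℓ W f.1 L X = j} - Real.exp (-(L * rho q ℓ W)) * (L * rho q ℓ W) ^ j / j.factorial| ≤ ε := by
  classical
  have hqR : (2 : ℝ) ≤ q := by exact_mod_cast hq
  obtain ⟨A, hA⟩ : ∃ A : ℝ, A = |A'| + 1 := ⟨_, rfl⟩
  have hA0 : 0 < A := by rw [hA]; positivity
  obtain ⟨T, hTε⟩ : ∃ T : ℕ, 1 / (q : ℝ) ^ T ≤ ε / 8 := by
    have h1 : Tendsto (fun T : ℕ => ((1 : ℝ) / q) ^ T) atTop (𝓝 0) :=
      tendsto_pow_atTop_nhds_zero_of_lt_one (by positivity) (by rw [div_lt_one (by linarith)]; linarith)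
    obtain ⟨T, hT⟩ := (h1.eventually (gt_mem_nhds (show (0 : ℝ) < ε / 8 by positivity))).exists
    refine ⟨T, ?_⟩
    rw [← one_div_pow]
    exact hT.le
  obtain ⟨η, hη⟩ : ∃ η : ℝ, η = ε / (8 * (T + 1)) := ⟨_, rfl⟩
  have hη0 : 0 < η := by rw [hη]; positivity
  obtain ⟨δ₁, hδ₁, M1, h1⟩ := poisson_TW hq (fun r => hT A' r A) (SL_prob p q s A') Lam j (ε / 2) (by positivity)
  obtain ⟨δ₂, hδ₂, M2, h2⟩ := word_set_le hq (fun r => hT A' r A) (SL_prob p q s A') η hη0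
  obtain ⟨M3, h3⟩ := word_le (by omega : 1 ≤ q) (fun r => hT A' r A) (ε / 8) (by positivity)
  obtain ⟨δ, hδ⟩ : ∃ δ : ℝ, δ = min (min δ₁ (δ₂ / A)) (min (1 / (T + 1)) (η / (2 * (|Lam| + 1)))) := ⟨_, rfl⟩
  have hδ0 : 0 < δ := by
    rw [hδ]
    refine lt_min (lt_min hδ₁ (by positivity)) (lt_min (by positivity) (by positivity))
  have hδa : δ ≤ δ₁ := by rw [hδ]; exact (min_le_left _ _).trans (min_le_left _ _)
  have hδb : δ ≤ δ₂ / A := by rw [hδ]; exact (min_le_left _ _).trans (min_le_right _ _)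
  have hδc : δ ≤ 1 / (T + 1) := by rw [hδ]; exact (min_le_right _ _).trans (min_le_left _ _)
  have hδd : δ ≤ η / (2 * (|Lam| + 1)) := by rw [hδ]; exact (min_le_right _ _).trans (min_le_right _ _)
  refine ⟨δ, hδ0, max (max M1 M2) (max M3 3), ?_⟩
  intro M hM f hf ℓ L W hW hNO hLD hℓ hL hlam
  have hM1 : M1 ≤ M := (le_max_left _ _).trans ((le_max_left _ _).trans hM)
  have hM2 : M2 ≤ M := (le_max_right _ _).trans ((le_max_left _ _).trans hM)
  have hM3 : M3 ≤ M := (le_max_left _ _).trans ((le_max_right _ _).trans hM)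
  have hM4 : 3 ≤ M := (le_max_right _ _).trans ((le_max_right _ _).trans hM)
  obtain ⟨i₀, D, μ⟩ := f
  obtain ⟨l, hl, hsi, hwin, hμ⟩ := hf
  simp only at hLD hsi hwin hμ ⊢
  subst hμ
  have hL1 : 1 ≤ L := by
    rcases Nat.eq_zero_or_pos L with h | h
    · subst h; norm_num at hL
    · exact h
  obtain ⟨J, hJd⟩ : ∃ J, i₀ + L + ℓ = s + J + 1 := ⟨i₀ + L + ℓ - 1 - s, by omega⟩
  have hlM : 1 ≤ log (M : ℝ) := by
    rw [Real.le_log_iff_exp_le (by positivity)]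
    have h1 := Real.exp_one_lt_d9
    have h2 : (3 : ℝ) ≤ M := by exact_mod_cast hM4
    linarith
  have hJA : (J : ℝ) ≤ A' * log M := by
    refine le_trans ?_ hwin
    exact_mod_cast (by omega : J ≤ i₀ + D)
  have hJA2 : (J : ℝ) + 1 ≤ A * log M := by
    have h4 : A' * log M ≤ |A'| * log M := mul_le_mul_of_nonneg_right (le_abs_self _) (by linarith)
    rw [hA, add_mul, one_mul]
    linarith
  have hLJ : L + ℓ ≤ J + 1 := by omega
  have hLJR : (L : ℝ) + ℓ ≤ (J : ℝ) + 1 := by exact_mod_cast hLJ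
  -- `L` is large
  have hLT : (T : ℝ) + 1 ≤ L := by
    have h4 : 1 ≤ 1 / ((T : ℝ) + 1) * L := hL.trans (mul_le_mul_of_nonneg_right hδc (Nat.cast_nonneg _))
    rw [one_div, inv_mul_eq_div, le_div_iff₀ (by positivity)] at h4
    linarith
  have hTJ : T ≤ J := by
    have h4 : T + 1 ≤ L := by exact_mod_cast hLT
    omega
  have hLp : (0 : ℝ) < L := by exact_mod_cast hL1
  have hρη : 2 * rho q ℓ W ≤ η := by
    have h4 : rho q ℓ W ≤ |Lam| * δ := by
      have h5 : L * rho q ℓ W ≤ |Lam| := hlam.trans (le_abs_self _)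
      have h6 : rho q ℓ W ≤ |Lam| / L := by
        rw [le_div_iff₀ hLp]
        linarith
      refine h6.trans ?_
      rw [div_le_iff₀ hLp]
      calc |Lam| = |Lam| * 1 := by ring
        _ ≤ |Lam| * (δ * L) := mul_le_mul_of_nonneg_left hL (abs_nonneg _)
        _ = |Lam| * δ * L := by ring
    have h5 : |Lam| * δ ≤ η / 2 := by
      calc |Lam| * δ ≤ (|Lam| + 1) * (η / (2 * (|Lam| + 1))) := by
            apply mul_le_mul (by linarith) hδd hδ0.le (by positivity)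
        _ = η / 2 := by field_simp
    linarith
  obtain ⟨P, hPd⟩ : ∃ P : Measure ℝ, P = smr (range M) (fun n => (l : ℝ) * (p : ℝ) ^ n / (q : ℝ) ^ s) q J := ⟨_, rfl⟩
  have hP : P ∈ SL p q s A' M := ⟨l, J, hl, hJA, hPd⟩
  have hPp : IsProbabilityMeasure P := SL_prob p q s A' M (by omega) P hP
  have g1 := h1 M hM1 P hP 0 ℓ L W hW hNO (by
    rw [Nat.zero_add, Nat.cast_add]
    linarith) (hℓ.trans (mul_le_mul_of_nonneg_right hδa hLp.le))
    (hL.trans (mul_le_mul_of_nonneg_right hδa hLp.le)) hlam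
  -- the bad events
  have g2 : P.real (Bl q ℓ W (i₀ - s) L T) ≤ T * (2 * η) := by
    refine Bl_le W _ L T P (by positivity) (fun i hi => ?_)
    have h4 := h2 M hM2 P hP ℓ i (Wp q ℓ W) (Wp_sub (by omega) hW) (by
      have h5 : (i : ℝ) + ℓ ≤ (L : ℝ) + ℓ := by
        have : (i : ℝ) ≤ L := by exact_mod_cast hi.le
        linarith
      linarith) (by
      calc (ℓ : ℝ) ≤ δ * L := hℓ
        _ ≤ δ₂ / A * (A * log M) := by
          apply mul_le_mul hδb _ hLp.le (by positivity)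
          have : (0 : ℝ) ≤ ℓ := Nat.cast_nonneg _
          linarith
        _ = δ₂ * log M := by field_simp)
    have h5 := Wp_rho q ℓ W
    linarith
  have g3 : P.real {x | wd q T (J - T) x = 0} ≤ ε / 4 := by
    have h4 := h3 M hM3 P hP T (J - T) 0 (by
      have : (((J - T : ℕ) : ℝ)) + T = J := by exact_mod_cast (by omega : J - T + T = J)
      linarith)
    linarith
  have g4 : (T : ℝ) * (2 * η) ≤ ε / 4 := by
    rw [hη]
    have h4 : (T : ℝ) * (2 * (ε / (8 * (T + 1)))) = ε / 4 * (T / (T + 1)) := by field_simp; ring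
    rw [h4]
    have h5 : (T : ℝ) / (T + 1) ≤ 1 := by
      rw [div_le_one (by positivity)]
      linarith
    have : 0 < ε / 4 := by positivity
    nlinarith
  have hE : MeasurableSet {x | num (fun i => Aw q ℓ W (0 + i)) L x = j} :=
    meas_num (fun i => meas_Aw q ℓ W (0 + i)) L (measurableSet_singleton j)
  have hB1 : MeasurableSet {x | wd q T (J - T) x = 0} := measurableSet_eq_fun (measurable_wd _ _ _) measurable_const
  have hB2 := meas_Bl q ℓ W (i₀ - s) L T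
  have hne : (range M).Nonempty := nonempty_range_iff.2 (by omega)
  have g5 := smr_close hne (fun n => (l : ℝ) * (p : ℝ) ^ n / (q : ℝ) ^ s) q J hE (hB1.union hB2)
    (fun n => occ q ℓ W i₀ L (l * p ^ n) = j) (fun n _ θ hθ hnB => by
      simp only [Set.mem_union, not_or] at hnB
      simp only [Set.mem_ofPred_eq]
      rw [cast_pow_mul] at hnB ⊢
      rw [point_occ (by omega) W hsi hJd hTJ (l * p ^ n) hθ hnB.1 hnB.2])
  rw [← hPd] at g5
  have g6 := measureReal_union_le (μ := P) {x | wd q T (J - T) x = 0} (Bl q ℓ W (i₀ - s) L T)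
  rw [pr_eq (range M) (fun n => l * p ^ n) {X | occ q ℓ W i₀ L X = j}
    (fun n => occ q ℓ W i₀ L (l * p ^ n) = j) (fun _ _ => Iff.rfl)]
  have g7 := abs_le.1 g1
  have g8 := abs_le.1 g5
  rw [abs_le]
  constructor
  · linarith [g7.1, g8.1]
  · linarith [g7.2, g8.2]

/-- one word -/
lemma word_low {q : ℕ} (hq : 2 ≤ q) {p s : ℕ} (hT : ∀ (A' : ℝ) (k : ℕ) (A : ℝ), TW q k A (SL p q s A'))
    (A' ε : ℝ) (hε : 0 < ε) : ∃ M0 : ℕ, ∀ M : ℕ, M0 ≤ M → ∀ f ∈ Flow p q s A' M, ∀ i k c : ℕ, i + k ≤ f.2.1 →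
      f.2.2 {X | X / q ^ (f.1 + i) % q ^ k = c} ≤ 2 * (1 / (q : ℝ) ^ k) + ε := by
  classical
  obtain ⟨M0, h⟩ := word_le (by omega : 1 ≤ q) (fun r => hT A' r A') (ε / 2) (by positivity)
  refine ⟨max M0 1, ?_⟩
  intro M hM f hf i k c hik
  obtain ⟨i₀, D, μ⟩ := f
  obtain ⟨l, hl, hsi, hwin, hμ⟩ := hf
  simp only at hik hsi hwin hμ ⊢
  subst hμ
  obtain ⟨J, hJ⟩ : ∃ J, s + J = i₀ + i + k := ⟨i₀ + i + k - s, by omega⟩
  have hJA : (J : ℝ) ≤ A' * log M := by
    refine le_trans ?_ hwin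
    exact_mod_cast (by omega : J ≤ i₀ + D)
  obtain ⟨P, hPd⟩ : ∃ P : Measure ℝ, P = smr (range M) (fun n => (l : ℝ) * (p : ℝ) ^ n / (q : ℝ) ^ s) q J := ⟨_, rfl⟩
  have hP : P ∈ SL p q s A' M := ⟨l, J, hl, hJA, hPd⟩
  have hMge : 1 ≤ M := (le_max_right _ _).trans hM
  have hPp : IsProbabilityMeasure P := SL_prob p q s A' M hMge P hP
  have hk : ((0 : ℕ) : ℝ) + k ≤ A' * log M := by
    rw [Nat.cast_zero, zero_add]
    refine le_trans ?_ hJA
    exact_mod_cast (by omega : k ≤ J)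
  have h1 := h M ((le_max_left _ _).trans hM) P hP k 0 c hk
  have h2 := h M ((le_max_left _ _).trans hM) P hP k 0 ((c + 1) % q ^ k) hk
  have hm : ∀ c : ℕ, MeasurableSet {x | wd q k 0 x = c} := fun c =>
    measurableSet_eq_fun (measurable_wd _ _ _) measurable_const
  have h3 := real_smr_ge (s := range M) (fun n => (l : ℝ) * (p : ℝ) ^ n / (q : ℝ) ^ s) q J
    (E := {x | wd q k 0 x = c} ∪ {x | wd q k 0 x = (c + 1) % q ^ k}) ((hm _).union (hm _))
    (fun n => (l * p ^ n) / q ^ (i₀ + i) % q ^ k = c) (fun n _ hn θ hθ => by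
      have hq0 : (0 : ℝ) < q := by positivity
      have hqs : (0 : ℝ) < (q : ℝ) ^ s := by positivity
      rw [cast_pow_mul]
      set X : ℕ := l * p ^ n with hX
      set Y : ℕ := X / q ^ s with hY
      set ρ : ℝ := ((X % q ^ s : ℕ) : ℝ) / (q : ℝ) ^ s with hρ
      have hρ0 : 0 ≤ ρ := by positivity
      have hρ1 : ρ < 1 := by
        rw [hρ, div_lt_one hqs]
        exact_mod_cast Nat.mod_lt X (pow_pos (by omega : 0 < q) s)
      have hx : (X : ℝ) / (q : ℝ) ^ s = Y + ρ := by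
        have h1 : (X : ℝ) = (q : ℝ) ^ s * Y + ((X % q ^ s : ℕ) : ℝ) := by
          exact_mod_cast (Nat.div_add_mod X (q ^ s)).symm
        rw [hρ]
        field_simp
        exact h1
      obtain ⟨Z, θ', hθ', hZ, hZθ⟩ : ∃ (Z : ℕ) (θ' : ℝ), θ' ∈ Set.Ico (0 : ℝ) 1 ∧ (Z = Y ∨ Z = Y + 1) ∧
          (X : ℝ) / (q : ℝ) ^ s + θ = Z + θ' := by
        rcases lt_or_ge (ρ + θ) 1 with h | h
        · exact ⟨Y, ρ + θ, ⟨add_nonneg hρ0 hθ.1, h⟩, Or.inl rfl, by rw [hx]; ring⟩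
        · refine ⟨Y + 1, ρ + θ - 1, ⟨by linarith, by linarith [hθ.2]⟩, Or.inr rfl, ?_⟩
          rw [hx]
          push_cast
          ring
      rw [hZθ]
      simp only [Set.mem_union, Set.mem_ofPred_eq]
      rw [wd_smear (by omega) (by omega) Z hθ']
      have e1 : J - (0 + k) = i₀ + i - s := by omega
      rw [e1]
      have e2 : X / q ^ (i₀ + i) = Y / q ^ (i₀ + i - s) := by
        rw [hY, Nat.div_div_eq_div_mul, ← pow_add]
        congr 2
        omega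
      rw [e2] at hn
      rcases hZ with rfl | rfl
      · exact Or.inl hn
      · rw [Nat.succ_div]
        split_ifs with hdvd
        · right
          rw [← hn, Nat.mod_add_mod]
        · left
          exact hn)
  rw [← hPd] at h3
  have h4 := measureReal_union_le (μ := P) {x | wd q k 0 x = c} {x | wd q k 0 x = (c + 1) % q ^ k}
  rw [pr_eq (range M) (fun n => l * p ^ n) {X | X / q ^ (i₀ + i) % q ^ k = c}
    (fun n => (l * p ^ n) / q ^ (i₀ + i) % q ^ k = c) (fun _ _ => Iff.rfl)]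
  linarith

/-- **the law of the longest run for the lowest digits** -/
theorem run_low {q b : ℕ} (hq : 2 ≤ q) (hb : b < q) {p s : ℕ}
    (hT : ∀ (A' : ℝ) (k : ℕ) (A : ℝ), TW q k A (SL p q s A')) (A' ε : ℝ) (hε : 0 < ε) :
    ∃ D0 M0 : ℕ, ∀ M : ℕ, M0 ≤ M → ∀ f ∈ Flow p q s A' M, D0 ≤ f.2.1 → ∀ k : ℕ,
      |f.2.2 {X | ¬ HasRun q b k f.1 f.2.1 X} - Real.exp (-((1 - 1 / (q : ℝ)) * (f.2.1 / (q : ℝ) ^ k)))| ≤ ε := by
  refine run_law hb hq (Flow p q s A') ?_ ?_ ?_ ε hε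
  · intro M f hf
    obtain ⟨l, hl, hsi, hwin, hμ⟩ := hf
    rw [hμ]
    exact pr_prop _ _
  · intro Lam ε hε
    obtain ⟨δ, hδ, M0, h⟩ := poisson_low hq hT A' Lam 0 ε hε
    refine ⟨δ, hδ, M0, fun M hM f hf ℓ L W h1 h2 h3 h4 h5 h6 => ?_⟩
    have := h M hM f hf ℓ L W h1 h2 h3 h4 h5 h6
    simpa using this
  · intro ε hε
    exact word_low hq hT A' ε hε

end Pool.Agent.K4H18.PO
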